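import Pool.Agent.Lib.MP_f1864b_gt.A.LamCo
import Pool.Agent.Lib.MP_f1864b_gt.Num.Ring

set_option autoImplicit false

/-!
# MP_f1864b_gt, arithmetic part: cocompactness of the congruence subgroup
-/

namespace Pool.Agent.MP_f1864b_gt.Coc

open Matrix Module Pool.Agent.MP_f1864b_gt Pool.Agent.Dold.Num

instance finite_OO : Module.Finite ℤ OO := by
  refine ⟨⟨Finset.univ.image fun j : Fin 4 => zO ^ (j : ℕ), ?_⟩⟩
  rw [eq_top_iff]
  intro x _
  obtain ⟨n, hn⟩ := (mem_OO_iff (x : ℂ × ℂ)).mp x.2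
  have h1 : x = ∑ j, n j • zO ^ (j : ℕ) := by
    apply Subtype.ext
    rw [hn]
    have h2 : (((∑ j, n j • zO ^ (j : ℕ) : OO)) : ℂ × ℂ) =
        OO.subtype (∑ j, n j • zO ^ (j : ℕ)) := rfl
    rw [h2, map_sum]
    refine Finset.sum_congr rfl fun j _ => ?_
    rw [map_zsmul, map_pow]
    rfl
  rw [h1]
  refine Submodule.sum_mem _ fun j _ => Submodule.smul_mem _ _ (Submodule.subset_span ?_)
  simp

instance : Module.Free ℤ OO := Module.free_of_finite_type_torsion_free'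

/-- Finite quotients. -/
theorem finite_quot (d : OO) (hd : d ≠ 0) : ∃ F : Set OO, F.Finite ∧ ∀ x, ∃ y ∈ F, d ∣ x - y := by
  have hI : Ideal.span {d} ≠ (⊥ : Ideal OO) := by
    rw [Ne, Ideal.span_singleton_eq_bot]
    exact hd
  have hfin : Finite (OO ⧸ Ideal.span {d}) := Ideal.finiteQuotientOfFreeOfNeBot _ hI
  refine ⟨Set.range fun q : OO ⧸ Ideal.span {d} => Quotient.out q, Set.finite_range _, fun x => ?_⟩
  refine ⟨_, ⟨Ideal.Quotient.mk (Ideal.span {d}) x, rfl⟩, ?_⟩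
  rw [← Ideal.mem_span_singleton, ← Ideal.Quotient.eq]
  exact (Quotient.out_eq (Ideal.Quotient.mk (Ideal.span {d}) x)).symm

theorem lam_co : ∃ r : ℝ, 0 ≤ r ∧ r < rho ∧ ∀ w ∈ Ball, ∃ g ∈ Lam,
    n2 (act ((g : Matrix (Fin 3) (Fin 3) OO).map s1) w) ≤ r :=
  lam_cocompact norm_ge finite_bounded finite_quot bO fun k => by
    rw [bO_apply]
    exact OO.pow_mem om_mem _

/-- Representatives modulo the congruence subgroup. -/
theorem exists_reps : ∃ S : Set (GL (Fin 3) OO), S.Finite ∧ S ⊆ Lam ∧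
    ∀ g ∈ Lam, ∃ s ∈ S, s⁻¹ * g ∈ Gam0 := by
  classical
  have hpi : piO ^ 2 ≠ 0 := by
    have h1 : piO ≠ 0 := by
      intro h
      have h2 : s1 piO = 0 := by rw [h, map_zero]
      rw [piO, map_sub, map_one, s1_zO] at h2
      exact ze_prim.ne_one (by norm_num) (sub_eq_zero.mp h2).symm
    exact pow_ne_zero 2 h1
  obtain ⟨F, hF1, hF2⟩ := finite_quot _ hpi
  choose f hf1 hf2 using hF2
  let τ : GL (Fin 3) OO → Matrix (Fin 3) (Fin 3) OO := fun g =>
    Matrix.of fun i j => f ((g : Matrix (Fin 3) (Fin 3) OO) i j)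
  have himg : (τ '' (Lam : Set (GL (Fin 3) OO))).Finite := by
    have h1 : {M : Matrix (Fin 3) (Fin 3) OO | ∀ i j, M i j ∈ F}.Finite := by
      have h2 : {M : Matrix (Fin 3) (Fin 3) OO | ∀ i j, M i j ∈ F} =
          Set.pi Set.univ fun _ : Fin 3 => Set.pi Set.univ fun _ : Fin 3 => F := by
        ext M
        exact ⟨fun h i _ j _ => h i j, fun h i j => h i trivial j trivial⟩
      rw [h2]
      exact Set.Finite.pi fun _ => Set.Finite.pi fun _ => hF1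
    refine h1.subset ?_
    rintro _ ⟨g, _, rfl⟩ i j
    exact hf1 _
  obtain ⟨S, hS1, hS2⟩ := Set.exists_subset_bijOn (Lam : Set (GL (Fin 3) OO)) τ
  refine ⟨S, hS2.finite_iff_finite.mpr himg, hS1, fun g hg => ?_⟩
  obtain ⟨s, hsS, hs⟩ := hS2.surjOn ⟨g, hg, rfl⟩
  have hsL : s ∈ Lam := hS1 hsS
  refine ⟨s, hsS, Lam.mul_mem (Lam.inv_mem hsL) hg, fun i j => ?_⟩
  have h1 : ∀ i j, piO ^ 2 ∣ ((g : Matrix (Fin 3) (Fin 3) OO) - s) i j := by
    intro i j
    have h2 : f ((s : Matrix (Fin 3) (Fin 3) OO) i j) = f ((g : Matrix (Fin 3) (Fin 3) OO) i j) :=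
      congrFun (congrFun hs i) j
    have h3 := hf2 ((g : Matrix (Fin 3) (Fin 3) OO) i j)
    have h4 := hf2 ((s : Matrix (Fin 3) (Fin 3) OO) i j)
    rw [h2] at h4
    have h5 := dvd_sub h3 h4
    rwa [sub_sub_sub_cancel_right] at h5
  have h2 : ((s⁻¹ * g : GL (Fin 3) OO) : Matrix (Fin 3) (Fin 3) OO) - 1 =
      ((s⁻¹ : GL (Fin 3) OO) : Matrix (Fin 3) (Fin 3) OO) *
        ((g : Matrix (Fin 3) (Fin 3) OO) - s) := by
    rw [mul_sub, Units.val_mul, ← Units.val_mul s⁻¹ s, inv_mul_cancel, Units.val_one]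
  rw [h2, Matrix.mul_apply]
  exact Finset.dvd_sum fun l _ => Dvd.dvd.mul_left (h1 l j) _

/-- The action is an action. -/
theorem act_mul {g h : Matrix (Fin 3) (Fin 3) ℂ} (hh : ∀ v, qf (h *ᵥ v) = qf v) {w : ℂ × ℂ}
    (hw : w ∈ Ball) : act (g * h) w = act g (act h w) := by
  have h1 := act_denom hh hw
  have h2 : g *ᵥ lift3 (act h w) = ((h *ᵥ lift3 w) 2)⁻¹ • ((g * h) *ᵥ lift3 w) := by
    rw [lift3_act hh hw, Matrix.mulVec_smul, Matrix.mulVec_mulVec]
  have h3 : ((h *ᵥ lift3 w) 2)⁻¹ ≠ 0 := inv_ne_zero h1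
  rw [act, act, h2]
  simp only [Pi.smul_apply, smul_eq_mul]
  rw [mul_div_mul_left _ _ h3, mul_div_mul_left _ _ h3]

theorem continuousOn_act {g : Matrix (Fin 3) (Fin 3) ℂ} (hg : ∀ v, qf (g *ᵥ v) = qf v) :
    ContinuousOn (act g) Ball := by
  have h1 : Continuous lift3 := by
    refine continuous_pi fun i => ?_
    fin_cases i
    · exact continuous_fst
    · exact continuous_snd
    · exact continuous_const
  have h2 : ∀ i, Continuous fun w => (g *ᵥ lift3 w) i := by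
    intro i
    exact (continuous_apply i).comp ((Continuous.matrix_mulVec continuous_const h1))
  refine ContinuousOn.prodMk ?_ ?_
  · exact (h2 0).continuousOn.div (h2 2).continuousOn fun w hw => act_denom hg hw
  · exact (h2 1).continuousOn.div (h2 2).continuousOn fun w hw => act_denom hg hw

theorem isCompact_n2 (r : ℝ) : IsCompact {y : ℂ × ℂ | n2 y ≤ r} := by
  have hc : Continuous n2 := by
    unfold n2
    fun_prop
  refine Metric.isCompact_of_isClosed_isBounded (isClosed_le hc continuous_const) ?_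
  rw [Metric.isBounded_iff_subset_closedBall 0]
  refine ⟨1 + |r|, fun y hy => ?_⟩
  rw [mem_closedBall_zero_iff, Prod.norm_def]
  have hy' : ‖y.1‖ ^ 2 + ‖y.2‖ ^ 2 ≤ r := hy
  have h1 := le_abs_self r
  refine max_le ?_ ?_
  · nlinarith [sq_nonneg (‖y.1‖ - 1), sq_nonneg ‖y.2‖, norm_nonneg y.1]
  · nlinarith [sq_nonneg (‖y.2‖ - 1), sq_nonneg ‖y.1‖, norm_nonneg y.2]

/-- **Cocompactness** of the congruence subgroup `Gam`: the field `cocompact` of `LatticeData`. -/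
theorem gam_cocompact : ∃ K : Set (ℂ × ℂ), K ⊆ Ball ∧ IsCompact K ∧
    ∀ w ∈ Ball, ∃ g ∈ Gam, act g.1 w ∈ K := by
  obtain ⟨r, _, hr1, hr2⟩ := lam_co
  obtain ⟨S, hSfin, hSL, hS⟩ := exists_reps
  have hsub : {y : ℂ × ℂ | n2 y ≤ r} ⊆ Ball := fun y hy => lt_of_le_of_lt hy hr1
  refine ⟨⋃ s ∈ S, (act (((s⁻¹ : GL (Fin 3) OO) : Matrix (Fin 3) (Fin 3) OO).map s1)) ''
    {y : ℂ × ℂ | n2 y ≤ r}, ?_, ?_, ?_⟩
  · intro y hy
    simp only [Set.mem_iUnion] at hy
    obtain ⟨s, hs, z, hz, rfl⟩ := hy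
    exact act_mem (qf_lam (Lam.inv_mem (hSL hs))) (hsub hz)
  · refine hSfin.isCompact_biUnion fun s hs => ?_
    exact (isCompact_n2 r).image_of_continuousOn
      ((continuousOn_act (qf_lam (Lam.inv_mem (hSL hs)))).mono hsub)
  · intro w hw
    obtain ⟨g, hg, hgw⟩ := hr2 w hw
    obtain ⟨s, hs, hsg⟩ := hS g hg
    refine ⟨Matrix.GeneralLinearGroup.map s1 (s⁻¹ * g), ⟨s⁻¹ * g, hsg, rfl⟩, ?_⟩
    simp only [Set.mem_iUnion]
    refine ⟨s, hs, act ((g : Matrix (Fin 3) (Fin 3) OO).map s1) w, hgw, ?_⟩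
    have h1 : (Matrix.GeneralLinearGroup.map s1 (s⁻¹ * g)).1 =
        ((s⁻¹ : GL (Fin 3) OO) : Matrix (Fin 3) (Fin 3) OO).map s1 *
          (g : Matrix (Fin 3) (Fin 3) OO).map s1 := by
      rw [← Matrix.map_mul, ← Units.val_mul]
      rfl
    rw [h1, act_mul (qf_lam hg) hw]

end Pool.Agent.MP_f1864b_gt.Coc
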