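import Pool.Agent.Lib.MP_f1864b_gt.A.Cocompact

set_option autoImplicit false

/-!
# MP_f1864b_gt, arithmetic part: the group is unitary and acts properly discontinuously
-/

namespace Pool.Agent.MP_f1864b_gt.Coc

open Matrix Module Pool.Agent.MP_f1864b_gt Pool.Agent.Dold.Num

/-- The field `unitary` of `LatticeData`. -/
theorem gam_unitary : ∀ g ∈ Gam, ∀ v, qf (g.1 *ᵥ v) = qf v := by
  rintro _ ⟨g, hg, rfl⟩ v
  exact qf_lam hg.1 v

/-- The elements of `Lam` preserve the definite form at the second place. -/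
theorem Q2_lam {g : GL (Fin 3) OO} (hg : g ∈ Lam) (v : Fin 3 → ℂ) :
    Q2 (((g : Matrix (Fin 3) (Fin 3) OO).map s2) *ᵥ v) = Q2 v := by
  set G : Matrix (Fin 3) (Fin 3) ℂ := (g : Matrix (Fin 3) (Fin 3) OO).map s2 with hG
  set H : Matrix (Fin 3) (Fin 3) ℂ := Matrix.diagonal ![1, 1, ((1 + rho : ℝ) : ℂ)] with hH
  have h1 : ∀ x : Fin 3 → ℂ, (Q2 x : ℂ) = (star x) ⬝ᵥ (H *ᵥ x) := by
    intro x
    rw [hH, Q2]
    simp only [dotProduct, Matrix.mulVec_diagonal, Fin.sum_univ_three, Pi.star_apply,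
      Matrix.cons_val]
    have h2 : ∀ z : ℂ, star z = (starRingEnd ℂ) z := fun _ => rfl
    have h3 : ∀ z : ℂ, ((‖z‖ : ℝ) : ℂ) ^ 2 = (starRingEnd ℂ) z * z := by
      intro z
      rw [mul_comm, mul_conj']
      push_cast
      rfl
    rw [h2, h2, h2]
    push_cast
    rw [h3, h3, h3]
    ring
  have h3 : G.conjTranspose * H * G = H := by
    have h4 : ((g : Matrix (Fin 3) (Fin 3) OO).map cj)ᵀ * hO * g = hO := hg
    have h5 := congrArg (fun M : Matrix (Fin 3) (Fin 3) OO => M.map s2) h4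
    simp only [Matrix.map_mul] at h5
    have h6 : (hO : Matrix (Fin 3) (Fin 3) OO).map s2 = H := by
      rw [hO, hH, Matrix.diagonal_map (map_zero s2)]
      congr 1
      funext i
      fin_cases i
      · simp
      · simp
      · simpa using s2_al
    have h7 : ((g : Matrix (Fin 3) (Fin 3) OO).map cj)ᵀ.map s2 = G.conjTranspose := by
      ext i j
      rfl
    rw [h6, h7] at h5
    exact h5
  have h8 : (Q2 (G *ᵥ v) : ℂ) = (Q2 v : ℂ) := by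
    rw [h1, h1, Matrix.star_mulVec, ← Matrix.dotProduct_mulVec, Matrix.mulVec_mulVec,
      Matrix.mulVec_mulVec, h3]
  exact_mod_cast h8

theorem Q0_nonneg (v : Fin 3 → ℂ) : 0 ≤ Q0 v := (abs_nonneg _).trans (abs_qf_le v)

theorem Q0_lift (w : ℂ × ℂ) : Q0 (lift3 w) = n2 w + rho := by
  simp [Q0, lift3, n2]

/-- The majorants at the points of a compact set are bounded by a multiple of `Q0`. -/
theorem Nf_le {w : ℂ × ℂ} {r : ℝ} (hr : r < rho) (hw : n2 w ≤ r) (v : Fin 3 → ℂ) :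
    Nf (lift3 w) v ≤ (1 + 4 * rho / (rho - r)) * Q0 v := by
  have hp := rho_pos
  have hQ := Q0_nonneg v
  have hn := n2_nonneg w
  have h1 : qf v ≤ Q0 v := (le_abs_self _).trans (abs_qf_le v)
  have h2 : ‖hf v (lift3 w)‖ ^ 2 ≤ Q0 v * (2 * rho) := by
    have h3 : ‖hf v (lift3 w)‖ ≤ Real.sqrt (Q0 v) * Real.sqrt (2 * rho) := by
      refine hf_le _ _ ?_ ?_ (Real.sqrt_nonneg _) (Real.sqrt_nonneg _)
      · rw [Real.sq_sqrt hQ]
      · rw [Real.sq_sqrt (by linarith), Q0_lift]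
        linarith
    calc ‖hf v (lift3 w)‖ ^ 2 ≤ (Real.sqrt (Q0 v) * Real.sqrt (2 * rho)) ^ 2 :=
          pow_le_pow_left₀ (norm_nonneg _) h3 2
      _ = Q0 v * (2 * rho) := by
          rw [mul_pow, Real.sq_sqrt hQ, Real.sq_sqrt (by linarith)]
  have h4 : 0 < rho - r := by linarith
  have h5 : 2 * ‖hf v (lift3 w)‖ ^ 2 / (-qf (lift3 w)) ≤ 4 * rho / (rho - r) * Q0 v := by
    rw [qf_lift, neg_sub]
    have h6 : 2 * ‖hf v (lift3 w)‖ ^ 2 / (rho - n2 w) ≤ 2 * ‖hf v (lift3 w)‖ ^ 2 / (rho - r) :=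
      div_le_div_of_nonneg_left (by positivity) h4 (by linarith)
    refine h6.trans ?_
    rw [div_mul_eq_mul_div]
    refine div_le_div_of_nonneg_right ?_ h4.le
    linarith
  rw [Nf]
  linarith

theorem Q0_le_Nf {w : ℂ × ℂ} {r : ℝ} (hr : r < rho) (hw : n2 w ≤ r) (v : Fin 3 → ℂ) :
    Q0 v ≤ (1 + 4 * rho / (rho - r)) * Nf (lift3 w) v := by
  have hwB : w ∈ Ball := lt_of_le_of_lt hw hr
  have h1 := Nf_le hr hw (refl (mv w) v)
  rw [← Q0_refl hwB, refl_refl (qf_mv_ne hwB), Q0_refl hwB] at h1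
  exact h1

/-- A compact subset of the ball is contained in a smaller ball. -/
theorem exists_r {K : Set (ℂ × ℂ)} (hK : K ⊆ Ball) (hc : IsCompact K) :
    ∃ r < rho, ∀ w ∈ K, n2 w ≤ r := by
  have hp := rho_pos
  rcases K.eq_empty_or_nonempty with rfl | hne
  · exact ⟨0, hp, by simp⟩
  · have hcont : Continuous n2 := by
      unfold n2
      fun_prop
    obtain ⟨w0, hw0, hmax⟩ := hc.exists_isMaxOn hne hcont.continuousOn
    exact ⟨n2 w0, hK hw0, fun w hw => hmax hw⟩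

theorem entry_le {G : Matrix (Fin 3) (Fin 3) ℂ} {C : ℝ} (hC : ∀ v, Q0 (G *ᵥ v) ≤ C * Q0 v)
    (hC0 : 0 ≤ C) (i j : Fin 3) : ‖G i j‖ ≤ 1 + C * (1 + rho) * (1 + 1 / rho) := by
  have hp := rho_pos
  have h1 := hC (Pi.single j 1)
  have h2 : Q0 (Pi.single j 1) ≤ 1 + rho := by
    fin_cases j <;> simp [Q0] <;> linarith
  have h3 : ∀ i, (G *ᵥ Pi.single j 1) i = G i j := by
    intro i
    simp
  have h4 : ‖G i j‖ ^ 2 ≤ (1 + 1 / rho) * Q0 (G *ᵥ Pi.single j 1) := by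
    have h5 : ∀ k, ‖(G *ᵥ Pi.single j 1) k‖ ^ 2 = ‖G k j‖ ^ 2 := fun k => by rw [h3]
    rw [Q0, h5, h5, h5]
    have a0 := sq_nonneg ‖G 0 j‖
    have a1 := sq_nonneg ‖G 1 j‖
    have a2 := sq_nonneg ‖G 2 j‖
    have e : (1 + 1 / rho) * (‖G 0 j‖ ^ 2 + ‖G 1 j‖ ^ 2 + rho * ‖G 2 j‖ ^ 2) =
        ‖G 0 j‖ ^ 2 + ‖G 1 j‖ ^ 2 + rho * ‖G 2 j‖ ^ 2 + ‖G 0 j‖ ^ 2 / rho + ‖G 1 j‖ ^ 2 / rho +
          ‖G 2 j‖ ^ 2 := by
      field_simp
      ring
    rw [e]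
    have b0 : 0 ≤ ‖G 0 j‖ ^ 2 / rho := by positivity
    have b1 : 0 ≤ ‖G 1 j‖ ^ 2 / rho := by positivity
    have b2 : 0 ≤ rho * ‖G 2 j‖ ^ 2 := by positivity
    fin_cases i
    · show ‖G 0 j‖ ^ 2 ≤ _
      linarith
    · show ‖G 1 j‖ ^ 2 ≤ _
      linarith
    · show ‖G 2 j‖ ^ 2 ≤ _
      linarith
  have h6 : (1 + 1 / rho) * Q0 (G *ᵥ Pi.single j 1) ≤ (1 + 1 / rho) * (C * (1 + rho)) :=
    mul_le_mul_of_nonneg_left (h1.trans (mul_le_mul_of_nonneg_left h2 hC0)) (by positivity)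
  nlinarith [sq_nonneg (‖G i j‖ - 1)]

theorem entry2_le {g : GL (Fin 3) OO} (hg : g ∈ Lam) (i j : Fin 3) :
    ‖s2 ((g : Matrix (Fin 3) (Fin 3) OO) i j)‖ ≤ 2 + rho := by
  have hp := rho_pos
  have h1 := Q2_lam hg (Pi.single j 1)
  have h2 : Q2 (Pi.single j 1) ≤ 1 + rho := by
    fin_cases j <;> simp [Q2] <;> linarith
  set G : Matrix (Fin 3) (Fin 3) ℂ := (g : Matrix (Fin 3) (Fin 3) OO).map s2 with hG
  have h3 : ∀ i, (G *ᵥ Pi.single j 1) i = G i j := by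
    intro i
    simp
  have h5 : ∀ k, ‖(G *ᵥ Pi.single j 1) k‖ ^ 2 = ‖G k j‖ ^ 2 := fun k => by rw [h3]
  rw [Q2, h5, h5, h5] at h1
  have a0 := sq_nonneg ‖G 0 j‖
  have a1 := sq_nonneg ‖G 1 j‖
  have a2 := sq_nonneg ‖G 2 j‖
  have b2 : 0 ≤ rho * ‖G 2 j‖ ^ 2 := by positivity
  have h4 : ‖G i j‖ ^ 2 ≤ 1 + rho := by
    fin_cases i
    · show ‖G 0 j‖ ^ 2 ≤ _
      linarith
    · show ‖G 1 j‖ ^ 2 ≤ _
      linarith
    · show ‖G 2 j‖ ^ 2 ≤ _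
      linarith
  have h6 : s2 ((g : Matrix (Fin 3) (Fin 3) OO) i j) = G i j := rfl
  rw [h6]
  nlinarith [sq_nonneg (‖G i j‖ - 1)]

/-- The field `discontinuous` of `LatticeData`. -/
theorem gam_discontinuous : ∀ K : Set (ℂ × ℂ), K ⊆ Ball → IsCompact K →
    {g : GL (Fin 3) ℂ | g ∈ Gam ∧ ∃ w ∈ K, act g.1 w ∈ K}.Finite := by
  intro K hK hc
  have hp := rho_pos
  obtain ⟨r, hr, hKr⟩ := exists_r hK hc
  set C : ℝ := 1 + 4 * rho / (rho - r) with hC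
  have hC0 : 0 ≤ C := by
    have : 0 < rho - r := by linarith
    positivity
  set R : ℝ := max (1 + C * C * (1 + rho) * (1 + 1 / rho)) (2 + rho) with hR
  have hfinmat : {M : Matrix (Fin 3) (Fin 3) OO | ∀ i j, M i j ∈
      {x : OO | ‖s1 x‖ ≤ R ∧ ‖s2 x‖ ≤ R}}.Finite := by
    have h2 : {M : Matrix (Fin 3) (Fin 3) OO | ∀ i j, M i j ∈
        {x : OO | ‖s1 x‖ ≤ R ∧ ‖s2 x‖ ≤ R}} =
        Set.pi Set.univ fun _ : Fin 3 => Set.pi Set.univ fun _ : Fin 3 =>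
          {x : OO | ‖s1 x‖ ≤ R ∧ ‖s2 x‖ ≤ R} := by
      ext M
      exact ⟨fun h i _ j _ => h i j, fun h i j => h i trivial j trivial⟩
    rw [h2]
    exact Set.Finite.pi fun _ => Set.Finite.pi fun _ => finite_bounded R
  have hfinG : {g : GL (Fin 3) OO | ∀ i j, (g : Matrix (Fin 3) (Fin 3) OO) i j ∈
      {x : OO | ‖s1 x‖ ≤ R ∧ ‖s2 x‖ ≤ R}}.Finite :=
    hfinmat.preimage Units.val_injective.injOn
  refine (hfinG.image (Matrix.GeneralLinearGroup.map s1)).subset ?_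
  rintro _ ⟨⟨g, hg, rfl⟩, w, hw, hgw⟩
  refine ⟨g, fun i j => ⟨?_, (entry2_le hg.1 i j).trans (le_max_right _ _)⟩, rfl⟩
  have hq := qf_lam hg.1
  have hgw' : act ((g : Matrix (Fin 3) (Fin 3) OO).map s1) w ∈ K := hgw
  have h1 : ∀ v, Q0 (((g : Matrix (Fin 3) (Fin 3) OO).map s1) *ᵥ v) ≤ C * C * Q0 v := by
    intro v
    have h2 := Q0_le_Nf hr (hKr _ hgw') (((g : Matrix (Fin 3) (Fin 3) OO).map s1) *ᵥ v)
    rw [Nf_act hq (hK hw)] at h2
    have h3 := Nf_le hr (hKr _ hw) v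
    calc _ ≤ C * Nf (lift3 w) v := h2
      _ ≤ C * (C * Q0 v) := mul_le_mul_of_nonneg_left h3 hC0
      _ = C * C * Q0 v := by ring
  exact (entry_le h1 (mul_nonneg hC0 hC0) i j).trans (le_max_left _ _)

end Pool.Agent.MP_f1864b_gt.Coc
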