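import Pool.Agent.Lib.MP_f1864b_gt.G.Defs

set_option autoImplicit false

/-!
# MP_f1864b_gt, arithmetic part: the hermitian form, its majorants and reflections
-/

namespace Pool.Agent.MP_f1864b_gt.Coc

open Matrix Pool.Agent.MP_f1864b_gt

theorem rho_pos : 0 < rho := by
  have h : (1 : ℝ) < Real.sqrt 5 := by
    rw [show (1 : ℝ) = Real.sqrt 1 from Real.sqrt_one.symm]
    exact Real.sqrt_lt_sqrt (by norm_num) (by norm_num)
  unfold rho
  linarith

/-- The hermitian form. -/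
noncomputable def hf (v w : Fin 3 → ℂ) : ℂ :=
  v 0 * (starRingEnd ℂ) (w 0) + v 1 * (starRingEnd ℂ) (w 1) - rho * (v 2 * (starRingEnd ℂ) (w 2))

/-- The positive definite form at the centre of the ball. -/
noncomputable def Q0 (v : Fin 3 → ℂ) : ℝ := ‖v 0‖ ^ 2 + ‖v 1‖ ^ 2 + rho * ‖v 2‖ ^ 2

theorem mul_conj' (z : ℂ) : z * (starRingEnd ℂ) z = ((‖z‖ ^ 2 : ℝ) : ℂ) := by
  rw [Complex.mul_conj, Complex.normSq_eq_norm_sq]

theorem hf_self (v : Fin 3 → ℂ) : hf v v = (qf v : ℂ) := by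
  rw [hf, qf, mul_conj', mul_conj', mul_conj']
  push_cast
  ring

theorem hf_conj (v w : Fin 3 → ℂ) : (starRingEnd ℂ) (hf v w) = hf w v := by
  simp only [hf, map_add, map_sub, map_mul, Complex.conj_conj, Complex.conj_ofReal]
  ring

theorem hf_add_left (v v' w : Fin 3 → ℂ) : hf (v + v') w = hf v w + hf v' w := by
  simp only [hf, Pi.add_apply]
  ring

theorem hf_smul_left (c : ℂ) (v w : Fin 3 → ℂ) : hf (c • v) w = c * hf v w := by
  simp only [hf, Pi.smul_apply, smul_eq_mul]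
  ring

theorem hf_sub_left (v v' w : Fin 3 → ℂ) : hf (v - v') w = hf v w - hf v' w := by
  simp only [hf, Pi.sub_apply]
  ring

theorem hf_add_right (v w w' : Fin 3 → ℂ) : hf v (w + w') = hf v w + hf v w' := by
  simp only [hf, Pi.add_apply, map_add]
  ring

theorem hf_sub_right (v w w' : Fin 3 → ℂ) : hf v (w - w') = hf v w - hf v w' := by
  simp only [hf, Pi.sub_apply, map_sub]
  ring

theorem hf_smul_right (c : ℂ) (v w : Fin 3 → ℂ) : hf v (c • w) = (starRingEnd ℂ) c * hf v w := by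
  simp only [hf, Pi.smul_apply, smul_eq_mul, map_mul]
  ring

theorem qf_smul (c : ℂ) (v : Fin 3 → ℂ) : qf (c • v) = ‖c‖ ^ 2 * qf v := by
  simp only [qf, Pi.smul_apply, smul_eq_mul, norm_mul]
  ring

/-- Two vectors with the same values of `qf` on all combinations: polarization. -/
theorem hf_eq_of_qf {g : Matrix (Fin 3) (Fin 3) ℂ} (hg : ∀ v, qf (g *ᵥ v) = qf v)
    (v w : Fin 3 → ℂ) : hf (g *ᵥ v) (g *ᵥ w) = hf v w := by
  have key : ∀ a b : Fin 3 → ℂ, hf (a + b) (a + b) = hf a a + hf b b + (hf a b + hf b a) := by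
    intro a b
    rw [hf_add_left, hf_add_right, hf_add_right]
    ring
  have h1 : ∀ v w : Fin 3 → ℂ, hf (g *ᵥ v) (g *ᵥ w) + hf (g *ᵥ w) (g *ᵥ v) = hf v w + hf w v := by
    intro v w
    have e1 := key (g *ᵥ v) (g *ᵥ w)
    have e2 := key v w
    rw [← Matrix.mulVec_add, hf_self, hf_self, hf_self, hg, hg, hg] at e1
    rw [hf_self, hf_self, hf_self] at e2
    linear_combination e2 - e1
  have h2 := h1 v w
  have h3 := h1 v (Complex.I • w)
  rw [Matrix.mulVec_smul, hf_smul_left, hf_smul_right, hf_smul_left, hf_smul_right,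
    Complex.conj_I] at h3
  have h4 : hf (g *ᵥ v) (g *ᵥ w) - hf (g *ᵥ w) (g *ᵥ v) = hf v w - hf w v := by
    have h5 : Complex.I * (hf (g *ᵥ v) (g *ᵥ w) - hf (g *ᵥ w) (g *ᵥ v) - (hf v w - hf w v)) = 0 := by
      linear_combination -h3
    rcases mul_eq_zero.mp h5 with h6 | h6
    · exact absurd h6 Complex.I_ne_zero
    · exact sub_eq_zero.mp h6
  linear_combination (h2 + h4) / 2

/-- The majorant at the negative vector `u`. -/
noncomputable def Nf (u v : Fin 3 → ℂ) : ℝ := qf v + 2 * ‖hf v u‖ ^ 2 / (-qf u)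

/-- The reflection in the vector `m`. -/
noncomputable def refl (m v : Fin 3 → ℂ) : Fin 3 → ℂ := v - (2 * hf v m / (qf m : ℂ)) • m

theorem refl_add (m v w : Fin 3 → ℂ) : refl m (v + w) = refl m v + refl m w := by
  rw [refl, refl, refl, hf_add_left]
  module

theorem refl_smul (m : Fin 3 → ℂ) (c : ℂ) (v : Fin 3 → ℂ) : refl m (c • v) = c • refl m v := by
  rw [refl, refl, hf_smul_left]
  module

theorem hf_refl {m : Fin 3 → ℂ} (hm : qf m ≠ 0) (v w : Fin 3 → ℂ) :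
    hf (refl m v) (refl m w) = hf v w := by
  have hm' : (qf m : ℂ) ≠ 0 := by exact_mod_cast hm
  rw [refl, refl, hf_sub_left, hf_sub_right, hf_sub_right, hf_smul_left, hf_smul_left,
    hf_smul_right, hf_smul_right, hf_self, map_div₀, map_mul, hf_conj, Complex.conj_ofReal,
    map_ofNat]
  field_simp
  ring

theorem refl_refl {m : Fin 3 → ℂ} (hm : qf m ≠ 0) (v : Fin 3 → ℂ) : refl m (refl m v) = v := by
  have hm' : (qf m : ℂ) ≠ 0 := by exact_mod_cast hm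
  have h1 : hf (refl m v) m = - hf v m := by
    rw [refl, hf_sub_left, hf_smul_left, hf_self]
    field_simp
    ring
  rw [refl, h1]
  rw [refl]
  module

theorem qf_refl {m : Fin 3 → ℂ} (hm : qf m ≠ 0) (v : Fin 3 → ℂ) : qf (refl m v) = qf v := by
  have h := hf_refl hm v v
  rw [hf_self, hf_self] at h
  exact_mod_cast h

theorem abs_qf_le (v : Fin 3 → ℂ) : |qf v| ≤ Q0 v := by
  have := rho_pos
  rw [qf, Q0, abs_le]
  constructor <;> nlinarith [sq_nonneg ‖v 0‖, sq_nonneg ‖v 1‖, mul_nonneg this.le (sq_nonneg ‖v 2‖)]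

/-- Cauchy-Schwarz. -/
theorem hf_le (v w : Fin 3 → ℂ) {a b : ℝ} (ha : Q0 v ≤ a ^ 2) (hb : Q0 w ≤ b ^ 2) (ha0 : 0 ≤ a)
    (hb0 : 0 ≤ b) : ‖hf v w‖ ≤ a * b := by
  have hr := rho_pos
  have h1 : ‖hf v w‖ ≤ ‖v 0‖ * ‖w 0‖ + ‖v 1‖ * ‖w 1‖ + rho * (‖v 2‖ * ‖w 2‖) := by
    rw [hf]
    refine (norm_sub_le _ _).trans ?_
    refine add_le_add ((norm_add_le _ _).trans (le_of_eq ?_)) (le_of_eq ?_)
    · rw [norm_mul, norm_mul, RCLike.norm_conj, RCLike.norm_conj]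
    · rw [norm_mul, norm_mul, RCLike.norm_conj, Complex.norm_real, Real.norm_of_nonneg hr.le]
  refine h1.trans ?_
  refine abs_le_of_sq_le_sq' ?_ (mul_nonneg ha0 hb0) |>.2
  have h2 : (‖v 0‖ * ‖w 0‖ + ‖v 1‖ * ‖w 1‖ + rho * (‖v 2‖ * ‖w 2‖)) ^ 2 ≤ Q0 v * Q0 w := by
    rw [Q0, Q0]
    have e1 := sq_nonneg (‖v 0‖ * ‖w 1‖ - ‖v 1‖ * ‖w 0‖)
    have e2 := mul_nonneg hr.le (sq_nonneg (‖v 0‖ * ‖w 2‖ - ‖v 2‖ * ‖w 0‖))
    have e3 := mul_nonneg hr.le (sq_nonneg (‖v 1‖ * ‖w 2‖ - ‖v 2‖ * ‖w 1‖))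
    nlinarith
  have h3 : Q0 v * Q0 w ≤ a ^ 2 * b ^ 2 := by
    refine mul_le_mul ha hb ?_ (sq_nonneg _)
    exact (abs_nonneg _).trans (abs_qf_le w)
  rw [mul_pow]
  linarith

end Pool.Agent.MP_f1864b_gt.Coc
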