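import Pool.Agent.Lib.MP_f1864b_gt.A.Types

set_option autoImplicit false

/-!
# MP_f1864b_gt, arithmetic part: cocompactness of `Lam`
-/

namespace Pool.Agent.MP_f1864b_gt.Coc

open Matrix Module Pool.Agent.MP_f1864b_gt Pool.Agent.Dold.Num

/-- The elements of `Lam` preserve the form at the first place. -/
theorem qf_lam {g : GL (Fin 3) OO} (hg : g ∈ Lam) (v : Fin 3 → ℂ) :
    qf (((g : Matrix (Fin 3) (Fin 3) OO).map s1) *ᵥ v) = qf v := by
  set G : Matrix (Fin 3) (Fin 3) ℂ := (g : Matrix (Fin 3) (Fin 3) OO).map s1 with hG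
  set H : Matrix (Fin 3) (Fin 3) ℂ := Matrix.diagonal ![1, 1, ((-rho : ℝ) : ℂ)] with hH
  have h1 : ∀ x : Fin 3 → ℂ, (qf x : ℂ) = (star x) ⬝ᵥ (H *ᵥ x) := by
    intro x
    rw [← hf_self, hf, hH]
    simp only [dotProduct, Matrix.mulVec_diagonal, Fin.sum_univ_three, Pi.star_apply,
      Matrix.cons_val]
    have h2 : ∀ z : ℂ, star z = (starRingEnd ℂ) z := fun _ => rfl
    rw [h2, h2, h2]
    push_cast
    ring
  have h3 : G.conjTranspose * H * G = H := by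
    have h4 : ((g : Matrix (Fin 3) (Fin 3) OO).map cj)ᵀ * hO * g = hO := hg
    have h5 := congrArg (fun M : Matrix (Fin 3) (Fin 3) OO => M.map s1) h4
    simp only [Matrix.map_mul] at h5
    have h6 : (hO : Matrix (Fin 3) (Fin 3) OO).map s1 = H := by
      rw [hO, hH, Matrix.diagonal_map (map_zero s1)]
      congr 1
      funext i
      fin_cases i
      · simp
      · simp
      · simpa using s1_al
    have h7 : ((g : Matrix (Fin 3) (Fin 3) OO).map cj)ᵀ.map s1 = G.conjTranspose := by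
      ext i j
      rfl
    rw [h6, h7] at h5
    exact h5
  have h8 : (qf (G *ᵥ v) : ℂ) = (qf v : ℂ) := by
    rw [h1, h1, Matrix.star_mulVec, ← Matrix.dotProduct_mulVec, Matrix.mulVec_mulVec,
      Matrix.mulVec_mulVec, h3]
  exact_mod_cast h8

section

variable (hnorm : ∀ x : OO, x ≠ 0 → 1 ≤ ‖s1 x‖ * ‖s2 x‖)
  (hfin : ∀ R : ℝ, {x : OO | ‖s1 x‖ ≤ R ∧ ‖s2 x‖ ≤ R}.Finite)
  (hquo : ∀ d : OO, d ≠ 0 → ∃ F : Set OO, F.Finite ∧ ∀ x, ∃ y ∈ F, d ∣ x - y)

/-- The integral matrices with bounded Gram matrices. -/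
def adm (R : ℝ) : Set (Matrix (Fin 3) (Fin 3) OO) :=
  {V | V.det ≠ 0 ∧ ∀ i j, ‖s1 (gram V i j)‖ ≤ R ∧ ‖s2 (gram V i j)‖ ≤ R}

/-- Bound for the determinant in terms of the Gram matrix. -/
noncomputable def Bd (G : Matrix (Fin 3) (Fin 3) OO) : ℝ :=
  1 + ‖s1 G.det‖ / rho + ‖s2 G.det‖

theorem det_le_Bd (V : Matrix (Fin 3) (Fin 3) OO) :
    ‖s1 V.det‖ ≤ Bd (gram V) ∧ ‖s2 V.det‖ ≤ Bd (gram V) := by
  have hr := rho_pos
  have h1 : ‖s1 (gram V).det‖ = ‖s1 V.det‖ ^ 2 * rho := by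
    rw [det_gram, map_mul, map_mul, s1_cj, s1_al, norm_mul, norm_mul, RCLike.norm_conj,
      Complex.norm_real, Real.norm_eq_abs, abs_neg, abs_of_pos hr]
    ring
  have h2 : ‖s2 (gram V).det‖ = ‖s2 V.det‖ ^ 2 * (1 + rho) := by
    rw [det_gram, map_mul, map_mul, s2_cj, s2_al, norm_mul, norm_mul, RCLike.norm_conj,
      Complex.norm_real, Real.norm_of_nonneg (by linarith)]
    ring
  have h3 : ‖s1 (gram V).det‖ / rho = ‖s1 V.det‖ ^ 2 := by
    rw [h1]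
    field_simp
  have h4 := norm_nonneg (s2 (gram V).det)
  have h5 := norm_nonneg (s2 V.det)
  rw [Bd, h3]
  constructor
  · nlinarith [sq_nonneg (‖s1 V.det‖ - 1)]
  · rw [h2]
    nlinarith [sq_nonneg (‖s2 V.det‖ - 1), sq_nonneg ‖s1 V.det‖, mul_nonneg hr.le (sq_nonneg ‖s2 V.det‖)]

include hfin hquo

/-- Finitely many types. -/
theorem finite_types (R : ℝ) : ∃ S : Set (Matrix (Fin 3) (Fin 3) OO), S.Finite ∧ S ⊆ adm R ∧
    ∀ V ∈ adm R, ∃ V' ∈ S, V'.det = V.det ∧ gram V' = gram V ∧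
      ∀ i j, V.det ∣ (V.adjugate - V'.adjugate) i j := by
  classical
  have hch : ∀ d : OO, ∃ F : Set OO, F.Finite ∧ (d ≠ 0 → ∀ x, ∃ y ∈ F, d ∣ x - y) := by
    intro d
    by_cases hd : d = 0
    · exact ⟨∅, Set.finite_empty, fun h => absurd hd h⟩
    · obtain ⟨F, h1, h2⟩ := hquo d hd
      exact ⟨F, h1, fun _ => h2⟩
  choose F hF1 hF2 using hch
  have hA : ∀ V : Matrix (Fin 3) (Fin 3) OO, ∃ A : Matrix (Fin 3) (Fin 3) OO, V ∈ adm R →
      (∀ i j, A i j ∈ F V.det) ∧ ∀ i j, V.det ∣ V.adjugate i j - A i j := by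
    intro V
    by_cases hV : V ∈ adm R
    · have h1 : ∀ i j, ∃ y ∈ F V.det, V.det ∣ V.adjugate i j - y := fun i j => hF2 _ hV.1 _
      choose A hA1 hA2 using h1
      exact ⟨Matrix.of A, fun _ => ⟨hA1, hA2⟩⟩
    · exact ⟨0, fun h => absurd h hV⟩
  choose A hA' using hA
  let τ : Matrix (Fin 3) (Fin 3) OO →
      Matrix (Fin 3) (Fin 3) OO × OO × Matrix (Fin 3) (Fin 3) OO := fun V => (gram V, V.det, A V)
  have hfinmat : ∀ (s : Set OO), s.Finite → {M : Matrix (Fin 3) (Fin 3) OO | ∀ i j, M i j ∈ s}.Finite := by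
    intro s hs
    have h1 : {M : Matrix (Fin 3) (Fin 3) OO | ∀ i j, M i j ∈ s} =
        Set.pi Set.univ fun _ : Fin 3 => Set.pi Set.univ fun _ : Fin 3 => s := by
      ext M
      exact ⟨fun h i _ j _ => h i j, fun h i j => h i trivial j trivial⟩
    rw [h1]
    exact Set.Finite.pi fun _ => Set.Finite.pi fun _ => hs
  have himg : (τ '' adm R).Finite := by
    have hG : {G : Matrix (Fin 3) (Fin 3) OO | ∀ i j, G i j ∈ {x : OO | ‖s1 x‖ ≤ R ∧ ‖s2 x‖ ≤ R}}.Finite :=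
      hfinmat _ (hfin R)
    refine Set.Finite.subset (Set.Finite.biUnion hG fun G _ =>
      Set.Finite.biUnion (hfin (Bd G)) fun d _ =>
        (Set.finite_singleton G).prod ((Set.finite_singleton d).prod (hfinmat _ (hF1 d)))) ?_
    rintro _ ⟨V, hV, rfl⟩
    simp only [Set.mem_iUnion]
    exact ⟨gram V, hV.2, V.det, det_le_Bd V, rfl, rfl, (hA' V hV).1⟩
  obtain ⟨S, hS1, hS2⟩ := Set.exists_subset_bijOn (adm R) τ
  refine ⟨S, hS2.finite_iff_finite.mpr himg, hS1, fun V hV => ?_⟩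
  obtain ⟨V', hV'S, hV'⟩ := hS2.surjOn ⟨V, hV, rfl⟩
  have h1 : gram V' = gram V := congrArg Prod.fst hV'
  have h2 : V'.det = V.det := congrArg (fun p => p.2.1) hV'
  have h3 : A V' = A V := congrArg (fun p => p.2.2) hV'
  refine ⟨V', hV'S, h2, h1, fun i j => ?_⟩
  have h4 := (hA' V hV).2 i j
  have h5 := (hA' V' (hS1 hV'S)).2 i j
  rw [h2, h3] at h5
  have h6 : (V.adjugate - V'.adjugate) i j = (V.adjugate i j - A V i j) -
      (V'.adjugate i j - A V i j) := by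
    rw [Matrix.sub_apply]
    ring
  rw [h6]
  exact dvd_sub h4 h5

include hnorm

variable (b : Basis (Fin 4) ℝ (ℂ × ℂ)) (hb : ∀ k, b k ∈ OO)

include hb

/-- **Cocompactness of `Lam`.** -/
theorem lam_cocompact : ∃ r : ℝ, 0 ≤ r ∧ r < rho ∧ ∀ w ∈ Ball, ∃ g ∈ Lam,
    n2 (act ((g : Matrix (Fin 3) (Fin 3) OO).map s1) w) ≤ r := by
  have hr := rho_pos
  obtain ⟨R, hR, hshort⟩ := exists_short b hb hnorm
  obtain ⟨S, hSfin, hSadm, hS⟩ := finite_types hfin hquo (R * R)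
  -- the bound for one type
  have hone : ∀ V' : Matrix (Fin 3) (Fin 3) OO, ∃ r' : ℝ, r' < rho ∧ (V'.det ≠ 0 → ∀ y ∈ Ball,
      (∀ j, Nf (lift3 y) (fun i => s1 (V' i j)) ≤ R ^ 2) → n2 y ≤ r') := by
    intro V'
    by_cases hd : V'.det = 0
    · exact ⟨0, hr, fun h => absurd hd h⟩
    · set P : Matrix (Fin 3) (Fin 3) ℂ := V'.map s1 with hP
      have hPdet : IsUnit P.det := by
        rw [isUnit_iff_ne_zero, hP, ← RingHom.mapMatrix_apply, ← RingHom.map_det]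
        intro h
        exact hd (s1_inj hnorm (h.trans (map_zero s1).symm))
      set c : Fin 3 → ℂ := P⁻¹ *ᵥ e3 with hc
      have hce : e3 = ∑ j, c j • fun i => s1 (V' i j) := by
        have h1 : P *ᵥ c = e3 := by
          rw [hc, Matrix.mulVec_mulVec, Matrix.mul_nonsing_inv _ hPdet, Matrix.one_mulVec]
        rw [← h1]
        funext i
        rw [Finset.sum_apply]
        simp only [Matrix.mulVec, dotProduct, Pi.smul_apply, smul_eq_mul]
        refine Finset.sum_congr rfl fun j _ => ?_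
        rw [hP, Matrix.map_apply, mul_comm]
      refine ⟨rho - 2 * rho ^ 2 / ((R * ∑ i, ‖c i‖) ^ 2 + rho), ?_, fun _ y hy hN =>
        n2_le_of_basis hy c _ hR hN hce⟩
      have : 0 < 2 * rho ^ 2 / ((R * ∑ i, ‖c i‖) ^ 2 + rho) := by positivity
      linarith
  choose r' hr'1 hr'2 using hone
  obtain ⟨r, hr0, hr1, hr2⟩ : ∃ r : ℝ, 0 ≤ r ∧ r < rho ∧ ∀ V' ∈ S, r' V' ≤ r := by
    rcases S.eq_empty_or_nonempty with hemp | hne
    · exact ⟨0, le_rfl, hr, by simp [hemp]⟩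
    · obtain ⟨V0, hV0, hmax⟩ := Set.exists_max_image S r' hSfin hne
      refine ⟨max 0 (r' V0), le_max_left _ _, max_lt hr (hr'1 V0), fun V' hV' =>
        (hmax V' hV').trans (le_max_right _ _)⟩
  refine ⟨r, hr0, hr1, fun w hw => ?_⟩
  obtain ⟨V, hVdet, hV⟩ := hshort w hw
  have hadm : V ∈ adm (R * R) := ⟨hVdet, fun i j =>
    ⟨s1_gram_le hw V i j hR fun j => (hV j).1, s2_gram_le V i j hR fun j => (hV j).2⟩⟩
  obtain ⟨V', hV'S, hdet, hgram, hadj⟩ := hS V hadm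
  obtain ⟨g, hg, hgV⟩ := exists_lam hnorm hVdet hdet hgram hadj
  have hq := qf_lam hg
  refine ⟨g, hg, (hr'2 V' (hSadm hV'S).1 _ (act_mem hq hw) fun j => ?_).trans (hr2 V' hV'S)⟩
  have h1 : (fun i => s1 (V' i j)) =
      ((g : Matrix (Fin 3) (Fin 3) OO).map s1) *ᵥ (fun i => s1 (V i j)) := by
    funext i
    rw [← hgV, Matrix.mul_apply, map_sum]
    simp only [Matrix.mulVec, dotProduct, Matrix.map_apply, map_mul]
  rw [h1, Nf_act hq hw]
  exact (hV j).1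

end

end Pool.Agent.MP_f1864b_gt.Coc
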