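import Mathlib

set_option autoImplicit false
set_option linter.unusedSectionVars false

/-!
# MP_f1864b_gt, arithmetic part: many short vectors

If a lattice of fixed covolume is moved by a linear map of determinant one so that all its nonzero
vectors have norm at least `m`, then the vectors of norm at most `R` span the space, `R` depending
only on the lattice and `m`.
-/

namespace Pool.Agent.F1864b

open MeasureTheory Module

section

variable {E : Type*} [NormedAddCommGroup E] [InnerProductSpace ℝ E] [FiniteDimensional ℝ E]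
  [MeasurableSpace E] [BorelSpace E]

/-- The long cylinder around the unit vector `e`. -/
def cyl (e : E) (a T : ℝ) : Set E := {w | ‖w - (inner ℝ e w : ℝ) • e‖ ≤ a ∧ |(inner ℝ e w : ℝ)| ≤ T}

theorem cyl_symm (e : E) (a T : ℝ) : ∀ w ∈ cyl e a T, -w ∈ cyl e a T := by
  rintro w ⟨h1, h2⟩
  constructor
  · rw [inner_neg_right, neg_smul, ← neg_add', norm_neg, ← sub_eq_add_neg]
    exact h1
  · rw [inner_neg_right, abs_neg]
    exact h2

theorem cyl_convex (e : E) (a T : ℝ) : Convex ℝ (cyl e a T) := by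
  rintro x ⟨hx1, hx2⟩ y ⟨hy1, hy2⟩ s t hs ht hst
  constructor
  · have h1 : s • x + t • y - (inner ℝ e (s • x + t • y) : ℝ) • e =
        s • (x - (inner ℝ e x : ℝ) • e) + t • (y - (inner ℝ e y : ℝ) • e) := by
      rw [inner_add_right, inner_smul_right, inner_smul_right]
      module
    rw [h1]
    calc _ ≤ ‖s • (x - (inner ℝ e x : ℝ) • e)‖ + ‖t • (y - (inner ℝ e y : ℝ) • e)‖ := norm_add_le _ _
      _ = s * ‖x - (inner ℝ e x : ℝ) • e‖ + t * ‖y - (inner ℝ e y : ℝ) • e‖ := by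
        rw [norm_smul, norm_smul, Real.norm_of_nonneg hs, Real.norm_of_nonneg ht]
      _ ≤ s * a + t * a := add_le_add (mul_le_mul_of_nonneg_left hx1 hs)
        (mul_le_mul_of_nonneg_left hy1 ht)
      _ = a := by rw [← add_mul, hst, one_mul]
  · rw [inner_add_right, inner_smul_right, inner_smul_right]
    calc _ ≤ |s * (inner ℝ e x : ℝ)| + |t * (inner ℝ e y : ℝ)| := abs_add_le _ _
      _ = s * |(inner ℝ e x : ℝ)| + t * |(inner ℝ e y : ℝ)| := by
        rw [abs_mul, abs_mul, abs_of_nonneg hs, abs_of_nonneg ht]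
      _ ≤ s * T + t * T := add_le_add (mul_le_mul_of_nonneg_left hx2 hs)
        (mul_le_mul_of_nonneg_left hy2 ht)
      _ = T := by rw [← add_mul, hst, one_mul]

theorem cyl_norm_le {e w : E} (he : ‖e‖ = 1) {a T : ℝ} (hw : w ∈ cyl e a T) : ‖w‖ ≤ a + T := by
  have h1 : w = (w - (inner ℝ e w : ℝ) • e) + (inner ℝ e w : ℝ) • e := by abel
  calc ‖w‖ = ‖(w - (inner ℝ e w : ℝ) • e) + (inner ℝ e w : ℝ) • e‖ := by rw [← h1]
    _ ≤ ‖w - (inner ℝ e w : ℝ) • e‖ + ‖(inner ℝ e w : ℝ) • e‖ := norm_add_le _ _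
    _ ≤ a + T := by
      rw [norm_smul, he, mul_one, Real.norm_eq_abs]
      exact add_le_add hw.1 hw.2

/-- The component orthogonal to `e` is the shortest one. -/
theorem norm_orth_le {e w : E} (he : ‖e‖ = 1) (c : ℝ) :
    ‖w - (inner ℝ e w : ℝ) • e‖ ≤ ‖w - c • e‖ := by
  have hee : (inner ℝ e e : ℝ) = 1 := by rw [real_inner_self_eq_norm_sq, he]; norm_num
  have h1 : w - c • e = (w - (inner ℝ e w : ℝ) • e) + ((inner ℝ e w : ℝ) - c) • e := by
    module
  have h2 : (inner ℝ (w - (inner ℝ e w : ℝ) • e) (((inner ℝ e w : ℝ) - c) • e) : ℝ) = 0 := by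
    rw [inner_smul_right, inner_sub_left, real_inner_smul_left, hee, real_inner_comm]
    ring
  have h3 : ‖w - c • e‖ ^ 2 = ‖w - (inner ℝ e w : ℝ) • e‖ ^ 2 +
      ‖((inner ℝ e w : ℝ) - c) • e‖ ^ 2 := by
    rw [h1, sq, sq, sq]
    exact norm_add_sq_eq_norm_sq_add_norm_sq_of_inner_eq_zero _ _ h2
  have h4 : ‖w - (inner ℝ e w : ℝ) • e‖ ^ 2 ≤ ‖w - c • e‖ ^ 2 := by
    rw [h3]
    nlinarith [sq_nonneg ‖((inner ℝ e w : ℝ) - c) • e‖]
  exact abs_le_of_sq_le_sq' h4 (norm_nonneg _) |>.2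

theorem ball_subset_cyl {e : E} (he : ‖e‖ = 1) {m : ℝ} (hm : 0 < m) {J j : ℕ} (hj : j < J) :
    Metric.ball ((j * m : ℝ) • e) (m / 4) ⊆ cyl e (m / 2) (m * J + m / 2) := by
  intro w hw
  rw [Metric.mem_ball, dist_eq_norm] at hw
  have hee : (inner ℝ e e : ℝ) = 1 := by rw [real_inner_self_eq_norm_sq, he]; norm_num
  constructor
  · exact (norm_orth_le he (j * m : ℝ)).trans (by linarith)
  · have h1 : (inner ℝ e w : ℝ) = inner ℝ e (w - (j * m : ℝ) • e) + j * m := by
      rw [inner_sub_right, inner_smul_right, hee]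
      ring
    have h2 : |(inner ℝ e (w - (j * m : ℝ) • e) : ℝ)| ≤ ‖w - (j * m : ℝ) • e‖ := by
      have := abs_real_inner_le_norm e (w - (j * m : ℝ) • e)
      rwa [he, one_mul] at this
    have h3 : (j : ℝ) * m ≤ J * m := mul_le_mul_of_nonneg_right (by exact_mod_cast hj.le) hm.le
    have h4 : 0 ≤ (j : ℝ) * m := by positivity
    rw [h1]
    calc _ ≤ |(inner ℝ e (w - (j * m : ℝ) • e) : ℝ)| + |(j * m : ℝ)| := abs_add_le _ _
      _ ≤ m / 4 + J * m := by
        rw [abs_of_nonneg h4]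
        linarith
      _ ≤ m * J + m / 2 := by linarith

theorem le_measure_cyl (μ : Measure E) [μ.IsAddHaarMeasure] {e : E} (he : ‖e‖ = 1) {m : ℝ}
    (hm : 0 < m) (J : ℕ) :
    (J : ENNReal) * μ (Metric.ball (0 : E) (m / 4)) ≤ μ (cyl e (m / 2) (m * J + m / 2)) := by
  have h1 : μ (⋃ j ∈ Finset.range J, Metric.ball ((j * m : ℝ) • e) (m / 4)) =
      ∑ j ∈ Finset.range J, μ (Metric.ball ((j * m : ℝ) • e) (m / 4)) := by
    refine measure_biUnion_finset ?_ fun _ _ => Metric.isOpen_ball.measurableSet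
    intro i _ j _ hij
    refine Metric.ball_disjoint_ball ?_
    rw [dist_eq_norm, ← sub_smul, norm_smul, he, mul_one, ← sub_mul, Real.norm_eq_abs, abs_mul,
      abs_of_pos hm]
    have h2 : (1 : ℝ) ≤ |(i : ℝ) - j| := by
      have h3 : (1 : ℤ) ≤ |(i : ℤ) - j| := Int.one_le_abs (sub_ne_zero.mpr (by exact_mod_cast hij))
      exact_mod_cast h3
    nlinarith
  have h2 : (J : ENNReal) * μ (Metric.ball (0 : E) (m / 4)) =
      ∑ j ∈ Finset.range J, μ (Metric.ball ((j * m : ℝ) • e) (m / 4)) := by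
    rw [Finset.sum_congr rfl fun j _ => Measure.addHaar_ball_center μ _ _, Finset.sum_const,
      Finset.card_range, nsmul_eq_mul]
  rw [h2, ← h1]
  refine measure_mono ?_
  intro w hw
  simp only [Set.mem_iUnion] at hw
  obtain ⟨j, hj, hw⟩ := hw
  exact ball_subset_cyl he hm (Finset.mem_range.mp hj) hw

/-- **Many short vectors.** -/
theorem span_short (μ : Measure E) [μ.IsAddHaarMeasure] (L : AddSubgroup E) [Countable L]
    (F : Set E) (fund : IsAddFundamentalDomain L F μ) (hF : μ F ≠ ⊤) (m : ℝ) (hm : 0 < m) :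
    ∃ R : ℝ, ∀ A : E →ₗ[ℝ] E, |LinearMap.det A| = 1 → (∀ v ∈ L, v ≠ 0 → m ≤ ‖A v‖) →
      Submodule.span ℝ {v : E | v ∈ L ∧ ‖A v‖ ≤ R} = ⊤ := by
  have hb : μ (Metric.ball (0 : E) (m / 4)) ≠ 0 :=
    (Metric.measure_ball_pos μ 0 (by positivity)).ne'
  obtain ⟨J, hJ⟩ : ∃ J : ℕ, μ F * 2 ^ finrank ℝ E < (J : ENNReal) * μ (Metric.ball (0 : E) (m / 4)) := by
    have h1 : μ F * 2 ^ finrank ℝ E ≠ ⊤ := ENNReal.mul_ne_top hF (ENNReal.pow_ne_top (by simp))
    obtain ⟨J, hJ⟩ := ENNReal.exists_nat_mul_gt hb h1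
    exact ⟨J, hJ⟩
  refine ⟨m / 2 + (m * J + m / 2), fun A hA hmin => ?_⟩
  by_contra hne
  have hdet : LinearMap.det A ≠ 0 := by
    intro h
    rw [h, abs_zero] at hA
    exact zero_ne_one hA
  set U := Submodule.span ℝ {v : E | v ∈ L ∧ ‖A v‖ ≤ m / 2 + (m * J + m / 2)} with hU
  have hAinj : Function.Injective A := by
    have := LinearMap.equivOfDetNeZero A hdet
    exact (LinearMap.equivOfDetNeZero A hdet).injective
  have hAU : Submodule.map A U ≠ ⊤ := by
    intro h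
    apply hne
    have h1 := congrArg (Submodule.comap A) h
    rwa [Submodule.comap_map_eq_of_injective hAinj, Submodule.comap_top] at h1
  have horth : (Submodule.map A U)ᗮ ≠ ⊥ := by
    intro h
    exact hAU ((Submodule.orthogonal_eq_bot_iff).mp h)
  obtain ⟨e0, he0, hne0⟩ := Submodule.exists_mem_ne_zero_of_ne_bot horth
  set e : E := (‖e0‖⁻¹ : ℝ) • e0 with he_def
  have he : ‖e‖ = 1 := by
    rw [he_def, norm_smul, norm_inv, norm_norm, inv_mul_cancel₀ (norm_ne_zero_iff.mpr hne0)]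
  have heU : e ∈ (Submodule.map A U)ᗮ := Submodule.smul_mem _ _ he0
  -- Minkowski
  have hsymm : ∀ x ∈ A ⁻¹' cyl e (m / 2) (m * J + m / 2), -x ∈ A ⁻¹' cyl e (m / 2) (m * J + m / 2) := by
    intro x hx
    rw [Set.mem_preimage, map_neg]
    exact cyl_symm e _ _ _ hx
  have hconv : Convex ℝ (A ⁻¹' cyl e (m / 2) (m * J + m / 2)) :=
    (cyl_convex e _ _).linear_preimage A
  have hmeas : μ (A ⁻¹' cyl e (m / 2) (m * J + m / 2)) = μ (cyl e (m / 2) (m * J + m / 2)) := by
    rw [Measure.addHaar_preimage_linearMap μ hdet, abs_inv, hA, inv_one, ENNReal.ofReal_one, one_mul]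
  have hlt : μ F * 2 ^ finrank ℝ E < μ (A ⁻¹' cyl e (m / 2) (m * J + m / 2)) := by
    rw [hmeas]
    exact hJ.trans_le (le_measure_cyl μ he hm J)
  obtain ⟨x, hx0, hx⟩ := exists_ne_zero_mem_lattice_of_measure_mul_two_pow_lt_measure fund hsymm
    hconv hlt
  have hx0' : (x : E) ≠ 0 := fun h => hx0 (Subtype.ext h)
  have hxR : ‖A x‖ ≤ m / 2 + (m * J + m / 2) := cyl_norm_le he hx
  have hxU : (x : E) ∈ U := Submodule.subset_span ⟨x.2, hxR⟩
  have hin : (inner ℝ e (A x) : ℝ) = 0 := by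
    rw [real_inner_comm]
    exact (Submodule.mem_orthogonal _ _).mp heU _ (Submodule.mem_map_of_mem hxU)
  have h1 := hx.1
  rw [hin, zero_smul, sub_zero] at h1
  have h2 := hmin x x.2 hx0'
  linarith

end

end Pool.Agent.F1864b
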