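import Pool.Agent.Lib.MP_f1864b_gt.A.Herm

set_option autoImplicit false

/-!
# MP_f1864b_gt, arithmetic part: majorants at the points of the ball
-/

namespace Pool.Agent.MP_f1864b_gt.Coc

open Matrix Pool.Agent.MP_f1864b_gt

/-- The centre of the ball. -/
noncomputable def e3 : Fin 3 → ℂ := ![0, 0, 1]

/-- The square of the euclidean norm of a point of `ℂ²`. -/
noncomputable def n2 (w : ℂ × ℂ) : ℝ := ‖w.1‖ ^ 2 + ‖w.2‖ ^ 2

theorem n2_nonneg (w : ℂ × ℂ) : 0 ≤ n2 w := by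
  unfold n2
  positivity

theorem mem_ball_iff (w : ℂ × ℂ) : w ∈ Ball ↔ n2 w < rho := Iff.rfl

theorem qf_lift (w : ℂ × ℂ) : qf (lift3 w) = n2 w - rho := by
  simp [qf, lift3, n2]

theorem hf_e3_right (v : Fin 3 → ℂ) : hf v e3 = -(rho * v 2) := by
  simp [hf, e3]

theorem Q0_eq (v : Fin 3 → ℂ) : Q0 v = qf v + 2 * ‖hf v e3‖ ^ 2 / rho := by
  have hr := rho_pos
  rw [hf_e3_right, norm_neg, norm_mul, Complex.norm_real, Real.norm_of_nonneg hr.le, Q0, qf]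
  field_simp
  ring

/-- The normalising factor. -/
noncomputable def cf (w : ℂ × ℂ) : ℝ := Real.sqrt (rho / (rho - n2 w))

theorem cf_sq {w : ℂ × ℂ} (hw : w ∈ Ball) : cf w ^ 2 = rho / (rho - n2 w) := by
  rw [mem_ball_iff] at hw
  exact Real.sq_sqrt (div_nonneg rho_pos.le (by linarith))

theorem cf_pos {w : ℂ × ℂ} (hw : w ∈ Ball) : 0 < cf w := by
  rw [mem_ball_iff] at hw
  exact Real.sqrt_pos.mpr (div_pos rho_pos (by linarith))

/-- The vector of the reflection which exchanges `w` and the centre. -/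
noncomputable def mv (w : ℂ × ℂ) : Fin 3 → ℂ := (cf w : ℂ) • lift3 w + e3

theorem hf_lift_e3 (w : ℂ × ℂ) : hf (lift3 w) e3 = -(rho : ℂ) := by
  rw [hf_e3_right]
  simp [lift3]

theorem hf_e3_lift (w : ℂ × ℂ) : hf e3 (lift3 w) = -(rho : ℂ) := by
  rw [← hf_conj, hf_lift_e3]
  simp

theorem hf_e3_e3 : hf e3 e3 = -(rho : ℂ) := by
  rw [hf_e3_right]
  simp [e3]

theorem qf_mv {w : ℂ × ℂ} (hw : w ∈ Ball) : qf (mv w) = -(2 * rho * (1 + cf w)) := by
  have h1 : (qf (mv w) : ℂ) = ((-(2 * rho * (1 + cf w)) : ℝ) : ℂ) := by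
    rw [← hf_self, mv, hf_add_left, hf_add_right, hf_add_right, hf_smul_left, hf_smul_right,
      hf_smul_left, hf_smul_right, hf_self, hf_lift_e3, hf_e3_lift, hf_e3_e3, qf_lift,
      Complex.conj_ofReal]
    have h2 : (cf w : ℂ) * ((cf w : ℂ) * ((n2 w - rho : ℝ) : ℂ)) = -(rho : ℂ) := by
      have h3 : cf w * (cf w * (n2 w - rho)) = -rho := by
        rw [← mul_assoc, ← sq, cf_sq hw]
        rw [mem_ball_iff] at hw
        have h4 : rho - n2 w ≠ 0 := by linarith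
        field_simp
        ring
      exact_mod_cast h3
    rw [h2]
    push_cast
    ring
  exact_mod_cast h1

theorem qf_mv_ne {w : ℂ × ℂ} (hw : w ∈ Ball) : qf (mv w) ≠ 0 := by
  rw [qf_mv hw]
  have := rho_pos
  have := cf_pos hw
  have : 0 < 2 * rho * (1 + cf w) := by positivity
  linarith

theorem refl_e3 {w : ℂ × ℂ} (hw : w ∈ Ball) : refl (mv w) e3 = -((cf w : ℂ) • lift3 w) := by
  have h1 : hf e3 (mv w) = -(rho * (1 + cf w) : ℂ) := by
    rw [mv, hf_add_right, hf_smul_right, hf_e3_lift, hf_e3_e3, Complex.conj_ofReal]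
    ring
  have hr := rho_pos
  have hc := cf_pos hw
  have h2 : ((2 * rho * (1 + cf w) : ℝ) : ℂ) ≠ 0 := by
    have : (0 : ℝ) < 2 * rho * (1 + cf w) := by positivity
    exact_mod_cast this.ne'
  have h3 : 2 * hf e3 (mv w) / (qf (mv w) : ℂ) = 1 := by
    rw [h1, qf_mv hw]
    push_cast at h2 ⊢
    rw [mul_neg, neg_div_neg_eq, div_eq_one_iff_eq h2]
    ring
  rw [refl, h3, one_smul, mv]
  abel

/-- The majorant at `w` is the pull back of the standard one. -/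
theorem Q0_refl {w : ℂ × ℂ} (hw : w ∈ Ball) (v : Fin 3 → ℂ) :
    Q0 (refl (mv w) v) = Nf (lift3 w) v := by
  have hm := qf_mv_ne hw
  have h1 : hf (refl (mv w) v) e3 = -((cf w : ℂ) * hf v (lift3 w)) := by
    have h2 : hf (refl (mv w) v) (refl (mv w) (refl (mv w) e3)) = hf v (refl (mv w) e3) :=
      hf_refl hm _ _
    rw [refl_refl hm, refl_e3 hw] at h2
    rw [h2]
    have h3 : -((cf w : ℂ) • lift3 w) = (-(cf w : ℂ)) • lift3 w := by rw [neg_smul]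
    rw [h3, hf_smul_right, map_neg, Complex.conj_ofReal]
    ring
  rw [Q0_eq, h1, norm_neg, norm_mul, Complex.norm_real, Real.norm_of_nonneg (cf_pos hw).le,
    qf_refl hm, Nf, mul_pow, cf_sq hw, qf_lift]
  rw [mem_ball_iff] at hw
  have h4 : rho - n2 w ≠ 0 := by linarith
  have h5 : -(n2 w - rho) = rho - n2 w := by ring
  have hr := rho_pos.ne'
  rw [h5]
  congr 1
  field_simp

theorem Nf_smul {c : ℂ} (hc : c ≠ 0) (u v : Fin 3 → ℂ) : Nf (c • u) v = Nf u v := by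
  rw [Nf, Nf, hf_smul_right, norm_mul, RCLike.norm_conj, qf_smul]
  have h1 : ‖c‖ ≠ 0 := norm_ne_zero_iff.mpr hc
  congr 1
  by_cases h2 : qf u = 0
  · rw [h2]
    simp
  · field_simp

theorem Nf_mulVec {g : Matrix (Fin 3) (Fin 3) ℂ} (hg : ∀ v, qf (g *ᵥ v) = qf v)
    (u v : Fin 3 → ℂ) : Nf (g *ᵥ u) (g *ᵥ v) = Nf u v := by
  rw [Nf, Nf, hf_eq_of_qf hg, hg, hg]

/-- A unitary matrix acts on the ball. -/
theorem act_denom {g : Matrix (Fin 3) (Fin 3) ℂ} (hg : ∀ v, qf (g *ᵥ v) = qf v) {w : ℂ × ℂ}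
    (hw : w ∈ Ball) : (g *ᵥ lift3 w) 2 ≠ 0 := by
  intro h
  have h1 := hg (lift3 w)
  rw [qf_lift, qf, h] at h1
  rw [mem_ball_iff] at hw
  simp only [norm_zero] at h1
  nlinarith [sq_nonneg ‖(g *ᵥ lift3 w) 0‖, sq_nonneg ‖(g *ᵥ lift3 w) 1‖]

theorem lift3_act {g : Matrix (Fin 3) (Fin 3) ℂ} (hg : ∀ v, qf (g *ᵥ v) = qf v) {w : ℂ × ℂ}
    (hw : w ∈ Ball) : lift3 (act g w) = ((g *ᵥ lift3 w) 2)⁻¹ • (g *ᵥ lift3 w) := by
  have h := act_denom hg hw
  funext i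
  fin_cases i
  · simp [lift3, act, div_eq_inv_mul]
  · simp [lift3, act, div_eq_inv_mul]
  · simp only [lift3, act, Pi.smul_apply, smul_eq_mul, Fin.reduceFinMk, Matrix.cons_val]
    exact (inv_mul_cancel₀ h).symm

theorem act_mem {g : Matrix (Fin 3) (Fin 3) ℂ} (hg : ∀ v, qf (g *ᵥ v) = qf v) {w : ℂ × ℂ}
    (hw : w ∈ Ball) : act g w ∈ Ball := by
  have h := act_denom hg hw
  have h1 : qf (lift3 (act g w)) < 0 := by
    rw [lift3_act hg hw, qf_smul, hg, qf_lift]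
    rw [mem_ball_iff] at hw
    have h2 : 0 < ‖((g *ᵥ lift3 w) 2)⁻¹‖ := by
      rw [norm_pos_iff]
      exact inv_ne_zero h
    have h3 : n2 w - rho < 0 := by linarith
    exact mul_neg_of_pos_of_neg (by positivity) h3
  rw [qf_lift] at h1
  rw [mem_ball_iff]
  linarith

theorem Nf_act {g : Matrix (Fin 3) (Fin 3) ℂ} (hg : ∀ v, qf (g *ᵥ v) = qf v) {w : ℂ × ℂ}
    (hw : w ∈ Ball) (v : Fin 3 → ℂ) : Nf (lift3 (act g w)) (g *ᵥ v) = Nf (lift3 w) v := by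
  rw [lift3_act hg hw, Nf_smul (inv_ne_zero (act_denom hg hw)), Nf_mulVec hg]

/-! ### The majorant is the square of a norm -/

/-- Embedding in the euclidean space. -/
noncomputable def emb (v : Fin 3 → ℂ) : EuclideanSpace ℂ (Fin 3) :=
  WithLp.toLp 2 ![v 0, v 1, (Real.sqrt rho : ℂ) * v 2]

theorem emb_norm_sq (v : Fin 3 → ℂ) : ‖emb v‖ ^ 2 = Q0 v := by
  have hr := rho_pos
  rw [EuclideanSpace.norm_sq_eq, Fin.sum_univ_three, Q0]
  simp only [emb, Matrix.cons_val, norm_mul, Complex.norm_real,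
    Real.norm_of_nonneg (Real.sqrt_nonneg rho), mul_pow, Real.sq_sqrt hr.le]

theorem emb_add (v w : Fin 3 → ℂ) : emb (v + w) = emb v + emb w := by
  ext i
  fin_cases i <;> simp [emb, mul_add]

theorem emb_smul (c : ℂ) (v : Fin 3 → ℂ) : emb (c • v) = c • emb v := by
  ext i
  fin_cases i <;> simp [emb]
  ring

theorem Nf_comb_le {w : ℂ × ℂ} (hw : w ∈ Ball) (c : Fin 3 → ℂ) (v : Fin 3 → (Fin 3 → ℂ)) {R : ℝ}
    (hR : 0 ≤ R) (hv : ∀ i, Nf (lift3 w) (v i) ≤ R ^ 2) :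
    Nf (lift3 w) (∑ i, c i • v i) ≤ (R * ∑ i, ‖c i‖) ^ 2 := by
  have h1 : ∀ i, ‖emb (refl (mv w) (v i))‖ ≤ R := by
    intro i
    have h2 := hv i
    rw [← Q0_refl hw, ← emb_norm_sq] at h2
    exact abs_le_of_sq_le_sq' h2 hR |>.2
  have h3 : emb (refl (mv w) (∑ i, c i • v i)) = ∑ i, c i • emb (refl (mv w) (v i)) := by
    rw [Fin.sum_univ_three, Fin.sum_univ_three, refl_add, refl_add, refl_smul, refl_smul,
      refl_smul, emb_add, emb_add, emb_smul, emb_smul, emb_smul]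
  rw [← Q0_refl hw, ← emb_norm_sq, h3]
  have h4 : ‖∑ i, c i • emb (refl (mv w) (v i))‖ ≤ R * ∑ i, ‖c i‖ := by
    refine (norm_sum_le _ _).trans ?_
    rw [Finset.mul_sum]
    refine Finset.sum_le_sum fun i _ => ?_
    rw [norm_smul, mul_comm]
    exact mul_le_mul_of_nonneg_right (h1 i) (norm_nonneg _)
  exact pow_le_pow_left₀ (norm_nonneg _) h4 2

/-- The points whose majorant is bounded on a basis stay away from the boundary. -/
theorem n2_le_of_basis {w : ℂ × ℂ} (hw : w ∈ Ball) (c : Fin 3 → ℂ) (v : Fin 3 → (Fin 3 → ℂ)) {R : ℝ}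
    (hR : 0 ≤ R) (hv : ∀ i, Nf (lift3 w) (v i) ≤ R ^ 2) (he : e3 = ∑ i, c i • v i) :
    n2 w ≤ rho - 2 * rho ^ 2 / ((R * ∑ i, ‖c i‖) ^ 2 + rho) := by
  have hr := rho_pos
  have h1 := Nf_comb_le hw c v hR hv
  rw [← he, Nf, hf_e3_lift, qf_lift, norm_neg, Complex.norm_real, Real.norm_of_nonneg hr.le] at h1
  have h2 : qf e3 = -rho := by
    have := hf_e3_e3
    rw [hf_self] at this
    exact_mod_cast this
  rw [h2] at h1
  rw [mem_ball_iff] at hw
  have h3 : 0 < rho - n2 w := by linarith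
  have h4 : -(n2 w - rho) = rho - n2 w := by ring
  rw [h4] at h1
  have h5 : 0 < (R * ∑ i, ‖c i‖) ^ 2 + rho := by positivity
  have h6 : 2 * rho ^ 2 / (rho - n2 w) ≤ (R * ∑ i, ‖c i‖) ^ 2 + rho := by linarith
  rw [div_le_iff₀ h3] at h6
  have h7 : 2 * rho ^ 2 / ((R * ∑ i, ‖c i‖) ^ 2 + rho) ≤ rho - n2 w := by
    rw [div_le_iff₀ h5]
    linarith
  linarith

end Pool.Agent.MP_f1864b_gt.Coc
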