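import Pool.Agent.Lib.MP_f1864b_gt.A.Refl
import Pool.Agent.Lib.MP_f1864b_gt.A.Mink
import Pool.Agent.Lib.MP_f1864b_gt.Num.Defs

set_option autoImplicit false

/-!
# MP_f1864b_gt, arithmetic part: three independent short vectors for every point of the ball
-/

namespace Pool.Agent.MP_f1864b_gt.Coc

open Matrix Module Pool.Agent.MP_f1864b_gt Pool.Agent.Dold.Num MeasureTheory

/-- The euclidean space of real dimension 12. -/
abbrev E0 := EuclideanSpace ℂ (Fin 3 ⊕ Fin 3)

/-- The positive definite form at the second place. -/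
noncomputable def Q2 (v : Fin 3 → ℂ) : ℝ := ‖v 0‖ ^ 2 + ‖v 1‖ ^ 2 + (1 + rho) * ‖v 2‖ ^ 2

/-- The weights. -/
noncomputable def wt : Fin 3 ⊕ Fin 3 → ℝ :=
  Sum.elim ![1, 1, Real.sqrt rho] ![1, 1, Real.sqrt (1 + rho)]

theorem wt_pos (i : Fin 3 ⊕ Fin 3) : 0 < wt i := by
  have hr := rho_pos
  rcases i with i | i <;> fin_cases i <;> simp [wt] <;> linarith

theorem wt_ne (i : Fin 3 ⊕ Fin 3) : (wt i : ℂ) ≠ 0 := by
  exact_mod_cast (wt_pos i).ne'

/-- The weighted identification of the two spaces. -/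
noncomputable def ph : (Fin 3 → ℂ × ℂ) ≃ₗ[ℝ] E0 where
  toFun f := WithLp.toLp 2 (fun i => (wt i : ℂ) * Sum.elim (fun j => (f j).1) (fun j => (f j).2) i)
  map_add' f g := by
    ext i
    rcases i with i | i <;> simp [mul_add]
  map_smul' c f := by
    ext i
    rcases i with i | i
    · simp
      ring
    · simp
      ring
  invFun x := fun j => ((wt (Sum.inl j) : ℂ)⁻¹ * x (Sum.inl j), (wt (Sum.inr j) : ℂ)⁻¹ * x (Sum.inr j))
  left_inv f := by
    funext j
    have h1 := wt_ne (Sum.inl j)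
    have h2 := wt_ne (Sum.inr j)
    ext
    · simp only [Sum.elim_inl]
      rw [inv_mul_cancel_left₀ h1]
    · simp only [Sum.elim_inr]
      rw [inv_mul_cancel_left₀ h2]
  right_inv x := by
    ext i
    have h1 := wt_ne i
    rcases i with i | i
    · simp only [Sum.elim_inl]
      rw [mul_inv_cancel_left₀ h1]
    · simp only [Sum.elim_inr]
      rw [mul_inv_cancel_left₀ h1]

theorem ph_norm_sq (f : Fin 3 → ℂ × ℂ) :
    ‖ph f‖ ^ 2 = Q0 (fun j => (f j).1) + Q2 (fun j => (f j).2) := by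
  have hr := rho_pos
  have hr' : 0 ≤ 1 + rho := by linarith
  rw [EuclideanSpace.norm_sq_eq, Fintype.sum_sum_type, Fin.sum_univ_three, Fin.sum_univ_three,
    Q0, Q2]
  simp only [ph, LinearEquiv.coe_mk, LinearMap.coe_mk, AddHom.coe_mk, Sum.elim_inl, Sum.elim_inr,
    wt, Matrix.cons_val, norm_mul, Complex.norm_real, Real.norm_of_nonneg (Real.sqrt_nonneg _),
    mul_pow, Real.sq_sqrt hr.le, Real.sq_sqrt hr', norm_one, one_mul]

/-- The reflection at the first place. -/
noncomputable def psi (m : Fin 3 → ℂ) : (Fin 3 → ℂ × ℂ) →ₗ[ℝ] (Fin 3 → ℂ × ℂ) where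
  toFun f := fun i => (refl m (fun j => (f j).1) i, (f i).2)
  map_add' f g := by
    funext i
    have h : (fun j => ((f + g) j).1) = (fun j => (f j).1) + fun j => (g j).1 := rfl
    rw [h, refl_add]
    rfl
  map_smul' c f := by
    funext i
    have h : (fun j => ((c • f) j).1) = (c : ℂ) • fun j => (f j).1 := by
      funext j
      simp
    rw [h, refl_smul]
    simp

theorem psi_psi {m : Fin 3 → ℂ} (hm : qf m ≠ 0) (f : Fin 3 → ℂ × ℂ) : psi m (psi m f) = f := by
  funext i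
  have h : (fun j => (psi m f j).1) = refl m (fun j => (f j).1) := rfl
  show (refl m (fun j => (psi m f j).1) i, (psi m f i).2) = f i
  rw [h, refl_refl hm]
  rfl

/-- The isometry of determinant `±1`. -/
noncomputable def Aw (m : Fin 3 → ℂ) : E0 →ₗ[ℝ] E0 :=
  (ph : (Fin 3 → ℂ × ℂ) →ₗ[ℝ] E0) ∘ₗ psi m ∘ₗ (ph.symm : E0 →ₗ[ℝ] (Fin 3 → ℂ × ℂ))

theorem Aw_det {m : Fin 3 → ℂ} (hm : qf m ≠ 0) : |LinearMap.det (Aw m)| = 1 := by
  have h1 : Aw m ∘ₗ Aw m = LinearMap.id := by
    ext1 x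
    simp only [Aw, LinearMap.comp_apply, LinearEquiv.coe_coe, LinearEquiv.symm_apply_apply,
      LinearMap.id_apply]
    rw [psi_psi hm, LinearEquiv.apply_symm_apply]
  have h2 : LinearMap.det (Aw m) * LinearMap.det (Aw m) = 1 := by
    rw [← LinearMap.det_comp, h1, LinearMap.det_id]
  have h3 : |LinearMap.det (Aw m)| * |LinearMap.det (Aw m)| = 1 := by
    rw [← abs_mul, h2, abs_one]
  have h4 := abs_nonneg (LinearMap.det (Aw m))
  nlinarith

theorem Aw_norm_sq {w : ℂ × ℂ} (hw : w ∈ Ball) (f : Fin 3 → ℂ × ℂ) :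
    ‖Aw (mv w) (ph f)‖ ^ 2 = Nf (lift3 w) (fun j => (f j).1) + Q2 (fun j => (f j).2) := by
  have h : Aw (mv w) (ph f) = ph (psi (mv w) f) := by
    simp [Aw]
  rw [h, ph_norm_sq]
  have h2 : (fun j => (psi (mv w) f j).1) = refl (mv w) (fun j => (f j).1) := rfl
  rw [h2, Q0_refl hw]
  rfl

/-- The two places of an integral vector. -/
noncomputable def pl (v : Fin 3 → OO) : Fin 3 → ℂ × ℂ := fun i => (v i : ℂ × ℂ)

theorem ze_re : ze.re = (Real.sqrt 5 - 1) / 4 := by
  have h1 : ze = Complex.exp ((2 * (Real.pi / 5) : ℝ) * Complex.I) := by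
    rw [ze]
    congr 1
    push_cast
    ring
  rw [h1, Complex.exp_ofReal_mul_I_re, Real.cos_two_mul, Real.cos_pi_div_five]
  have h2 : Real.sqrt 5 ^ 2 = 5 := Real.sq_sqrt (by norm_num)
  linear_combination h2 / 8

theorem ze_norm : ‖ze‖ = 1 := by
  have h1 : ze = Complex.exp ((2 * (Real.pi / 5) : ℝ) * Complex.I) := by
    rw [ze]
    congr 1
    push_cast
    ring
  rw [h1, Complex.norm_exp_ofReal_mul_I]

theorem ze_im_sq : ze.im ^ 2 = 1 - ((Real.sqrt 5 - 1) / 4) ^ 2 := by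
  have h1 : ze.re ^ 2 + ze.im ^ 2 = 1 := by
    have h2 := Complex.normSq_eq_norm_sq ze
    rw [ze_norm, Complex.normSq_apply] at h2
    nlinarith
  rw [ze_re] at h1
  linarith

theorem s1_al : s1 al = ((-rho : ℝ) : ℂ) := by
  have h1 : s1 al = -(ze + ze ^ 4) := rfl
  rw [h1, ← ze_conj, Complex.add_conj, ze_re, rho]
  push_cast
  ring

theorem s2_al : s2 al = ((1 + rho : ℝ) : ℂ) := by
  have h1 : s2 al = -(ze ^ 2 + (ze ^ 2) ^ 4) := rfl
  have h2 : (ze ^ 2) ^ 4 = (starRingEnd ℂ) (ze ^ 2) := by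
    rw [map_pow, ze_conj]
    ring
  rw [h1, h2, Complex.add_conj]
  have h3 : (ze ^ 2).re = -(1 + Real.sqrt 5) / 4 := by
    rw [sq, Complex.mul_re, ← sq, ← sq, ze_im_sq, ze_re]
    have h2 : Real.sqrt 5 ^ 2 = 5 := Real.sq_sqrt (by norm_num)
    linear_combination h2 / 8
  rw [h3, rho]
  push_cast
  ring

theorem norm_pl {w : ℂ × ℂ} (hw : w ∈ Ball) (hnorm : ∀ x : OO, x ≠ 0 → 1 ≤ ‖s1 x‖ * ‖s2 x‖)
    {v : Fin 3 → OO} (hv : v ≠ 0) : 1 ≤ ‖Aw (mv w) (ph (pl v))‖ := by
  have hr := rho_pos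
  have h0 : 1 ≤ ‖Aw (mv w) (ph (pl v))‖ ^ 2 := by
    rw [Aw_norm_sq hw]
    set x : OO := v 0 * cj (v 0) + v 1 * cj (v 1) + al * (v 2 * cj (v 2)) with hx
    have e1 : ∀ y : OO, s1 (cj y) = (starRingEnd ℂ) (s1 y) := fun y => rfl
    have e2 : ∀ y : OO, s2 (cj y) = (starRingEnd ℂ) (s2 y) := fun y => rfl
    have hx1 : s1 x = (qf (fun j => (pl v j).1) : ℂ) := by
      rw [hx, map_add, map_add, map_mul, map_mul, map_mul, map_mul, e1, e1, e1, s1_al, mul_conj',
        mul_conj', mul_conj', qf]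
      push_cast
      have : ∀ i, s1 (v i) = (pl v i).1 := fun _ => rfl
      rw [this, this, this]
      ring
    have hx2 : s2 x = (Q2 (fun j => (pl v j).2) : ℂ) := by
      rw [hx, map_add, map_add, map_mul, map_mul, map_mul, map_mul, e2, e2, e2, s2_al, mul_conj',
        mul_conj', mul_conj', Q2]
      push_cast
      have : ∀ i, s2 (v i) = (pl v i).2 := fun _ => rfl
      rw [this, this, this]
    have hQ2 : 0 < Q2 (fun j => (pl v j).2) := by
      obtain ⟨i, hi⟩ := Function.ne_iff.mp hv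
      have h1 := hnorm (v i) hi
      have h2 : (pl v i).2 ≠ 0 := by
        intro h3
        have h4 : s2 (v i) = 0 := h3
        rw [h4, norm_zero, mul_zero] at h1
        linarith
      have h3 : 0 < ‖(pl v i).2‖ ^ 2 := by positivity
      rw [Q2]
      have a0 := sq_nonneg ‖(pl v 0).2‖
      have a1 := sq_nonneg ‖(pl v 1).2‖
      have a2 := mul_nonneg (show 0 ≤ 1 + rho by linarith) (sq_nonneg ‖(pl v 2).2‖)
      have b2 : ‖(pl v 2).2‖ ^ 2 ≤ (1 + rho) * ‖(pl v 2).2‖ ^ 2 := by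
        nlinarith [sq_nonneg ‖(pl v 2).2‖]
      fin_cases i
      · change 0 < ‖(pl v 0).2‖ ^ 2 at h3
        linarith
      · change 0 < ‖(pl v 1).2‖ ^ 2 at h3
        linarith
      · change 0 < ‖(pl v 2).2‖ ^ 2 at h3
        linarith
    have hx0 : x ≠ 0 := by
      intro h
      rw [h, map_zero] at hx2
      have : (0 : ℝ) = Q2 (fun j => (pl v j).2) := by exact_mod_cast hx2
      linarith
    have h5 := hnorm x hx0
    rw [hx1, hx2, Complex.norm_real, Complex.norm_real, Real.norm_eq_abs,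
      Real.norm_of_nonneg hQ2.le] at h5
    have h6 : |qf (fun j => (pl v j).1)| ≤ Nf (lift3 w) (fun j => (pl v j).1) := by
      rw [← Q0_refl hw, ← qf_refl (qf_mv_ne hw)]
      exact abs_qf_le _
    have h7 := abs_nonneg (qf (fun j => (pl v j).1))
    set a := |qf (fun j => (pl v j).1)|
    set c := Q2 (fun j => (pl v j).2)
    have h8 : 1 ≤ a + c := by nlinarith [sq_nonneg (a - c)]
    linarith
  have h9 := norm_nonneg (Aw (mv w) (ph (pl v)))
  nlinarith

section

variable (b : Basis (Fin 4) ℝ (ℂ × ℂ)) (hb : ∀ k, b k ∈ OO)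

/-- The basis of the lattice of integral vectors. -/
noncomputable def BB : Basis (Σ _ : Fin 3, Fin 4) ℝ E0 :=
  (Pi.basis fun _ : Fin 3 => b).map ph

include hb

/-- The elements of the lattice are integral vectors. -/
theorem mem_lattice {x : E0} (hx : x ∈ Submodule.span ℤ (Set.range (BB b))) :
    ∃ v : Fin 3 → OO, x = ph (pl v) := by
  induction hx using Submodule.span_induction with
  | mem x hx =>
    obtain ⟨⟨i, k⟩, rfl⟩ := hx
    refine ⟨Pi.single i ⟨b k, hb k⟩, ?_⟩
    rw [BB, Basis.map_apply, Pi.basis_apply]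
    congr 1
    funext j
    rw [pl]
    by_cases h : j = i
    · subst h
      simp
    · rw [Pi.single_eq_of_ne h, Pi.single_eq_of_ne h]
      rfl
  | zero =>
    refine ⟨0, ?_⟩
    have : pl (0 : Fin 3 → OO) = 0 := rfl
    rw [this, map_zero]
  | add x y _ _ hx hy =>
    obtain ⟨v, rfl⟩ := hx
    obtain ⟨v', rfl⟩ := hy
    refine ⟨v + v', ?_⟩
    have : pl (v + v') = pl v + pl v' := rfl
    rw [this, map_add]
  | smul n x _ hx =>
    obtain ⟨v, rfl⟩ := hx
    refine ⟨n • v, ?_⟩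
    have : pl (n • v) = n • pl v := by
      funext i
      show (((n • v) i : OO) : ℂ × ℂ) = n • (v i : ℂ × ℂ)
      rw [Pi.smul_apply]
      exact map_zsmul OO.subtype n (v i)
    rw [this, map_zsmul]

/-- **Three independent short vectors.** -/
theorem exists_short (hnorm : ∀ x : OO, x ≠ 0 → 1 ≤ ‖s1 x‖ * ‖s2 x‖) :
    ∃ R : ℝ, 0 ≤ R ∧ ∀ w ∈ Ball, ∃ V : Matrix (Fin 3) (Fin 3) OO, V.det ≠ 0 ∧
      ∀ j, Nf (lift3 w) (fun i => s1 (V i j)) ≤ R ^ 2 ∧ Q2 (fun i => s2 (V i j)) ≤ R ^ 2 := by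
  have hfund := ZSpan.isAddFundamentalDomain (BB b) (volume : Measure E0)
  have : Countable (Submodule.span ℤ (Set.range (BB b))).toAddSubgroup :=
    inferInstanceAs (Countable (Submodule.span ℤ (Set.range (BB b))))
  obtain ⟨R, hR⟩ := Pool.Agent.F1864b.span_short (volume : Measure E0)
    (Submodule.span ℤ (Set.range (BB b))).toAddSubgroup (ZSpan.fundamentalDomain (BB b)) hfund
    (ZSpan.fundamentalDomain_isBounded (BB b)).measure_lt_top.ne 1 one_pos
  refine ⟨max R 0, le_max_right _ _, fun w hw => ?_⟩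
  have hm := qf_mv_ne hw
  have hspan := hR (Aw (mv w)) (Aw_det hm) (by
    intro x hx hx0
    obtain ⟨v, rfl⟩ := mem_lattice b hb hx
    refine norm_pl hw hnorm ?_
    rintro rfl
    apply hx0
    have : pl (0 : Fin 3 → OO) = 0 := rfl
    rw [this, map_zero])
  -- the first components of the short vectors span
  set S : Set (Fin 3 → ℂ) :=
    {z | ∃ v : Fin 3 → OO, ‖Aw (mv w) (ph (pl v))‖ ≤ R ∧ z = fun i => s1 (v i)} with hS
  have hSspan : Submodule.span ℂ S = ⊤ := by
    rw [eq_top_iff]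
    intro z _
    -- real linear projection
    let p : E0 →ₗ[ℝ] (Fin 3 → ℂ) :=
      (LinearMap.pi fun i => (LinearMap.fst ℝ ℂ ℂ) ∘ₗ (LinearMap.proj i)) ∘ₗ
        (ph.symm : E0 →ₗ[ℝ] (Fin 3 → ℂ × ℂ))
    have hp : ∀ f : Fin 3 → ℂ × ℂ, p (ph f) = fun i => (f i).1 := by
      intro f
      funext i
      simp [p]
    have h1 : ph (fun i => (z i, 0)) ∈ Submodule.span ℝ {v : E0 |
        v ∈ (Submodule.span ℤ (Set.range (BB b))).toAddSubgroup ∧ ‖Aw (mv w) v‖ ≤ R} := by
      rw [hspan]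
      trivial
    have h2 : z = p (ph (fun i => (z i, 0))) := by
      rw [hp]
    rw [h2]
    have h3 : ∀ y ∈ Submodule.span ℝ {v : E0 |
        v ∈ (Submodule.span ℤ (Set.range (BB b))).toAddSubgroup ∧ ‖Aw (mv w) v‖ ≤ R},
        p y ∈ Submodule.span ℂ S := by
      intro y hy
      induction hy using Submodule.span_induction with
      | mem y hy =>
        obtain ⟨v, rfl⟩ := mem_lattice b hb hy.1
        refine Submodule.subset_span ⟨v, hy.2, ?_⟩
        rw [hp]
        rfl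
      | zero => rw [map_zero]; exact Submodule.zero_mem _
      | add x y _ _ hx hy => rw [map_add]; exact Submodule.add_mem _ hx hy
      | smul c x _ hx =>
        rw [map_smul]
        have : c • p x = (c : ℂ) • p x := by
          funext i
          simp
        rw [this]
        exact Submodule.smul_mem _ _ hx
    exact h3 _ h1
  obtain ⟨f, hfS, hfspan, hfli⟩ := Submodule.exists_fun_fin_finrank_span_eq ℂ S
  have hcard : finrank ℂ (Submodule.span ℂ S) = 3 := by
    rw [hSspan, finrank_top, finrank_fin_fun]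
  -- reindex
  let f' : Fin 3 → (Fin 3 → ℂ) := fun j => f (Fin.cast hcard.symm j)
  have hf'S : ∀ j, f' j ∈ S := fun j => hfS _
  have hf'li : LinearIndependent ℂ f' := hfli.comp _ (Fin.cast_injective _)
  choose V hV1 hV2 using hf'S
  refine ⟨Matrix.of fun i j => V j i, ?_, ?_⟩
  · intro hdet
    have h1 : (Matrix.of fun i j => f' j i).det = 0 := by
      have h2 : (Matrix.of fun i j => f' j i) = (Matrix.of fun i j => V j i).map s1 := by
        ext i j
        rw [Matrix.of_apply, Matrix.map_apply, Matrix.of_apply, hV2]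
      rw [h2, ← RingHom.mapMatrix_apply, ← RingHom.map_det, hdet, map_zero]
    have h3 : (Matrix.of f').det = 0 := by
      rw [← Matrix.det_transpose]
      exact h1
    have h4 : LinearIndependent ℂ (Matrix.of f').row := hf'li
    rw [Matrix.linearIndependent_rows_iff_isUnit] at h4
    rw [Matrix.isUnit_iff_isUnit_det, h3] at h4
    exact not_isUnit_zero h4
  · intro j
    have h1 := hV1 j
    have h2 : ‖Aw (mv w) (ph (pl (V j)))‖ ^ 2 ≤ (max R 0) ^ 2 :=
      pow_le_pow_left₀ (norm_nonneg _) (h1.trans (le_max_left _ _)) 2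
    rw [Aw_norm_sq hw] at h2
    have h3 : 0 ≤ Nf (lift3 w) (fun j' => (pl (V j) j').1) := by
      rw [← Q0_refl hw]
      exact (abs_nonneg _).trans (abs_qf_le _)
    have h4 : 0 ≤ Q2 (fun j' => (pl (V j) j').2) := by
      have hr := rho_pos
      rw [Q2]
      positivity
    constructor
    · change Nf (lift3 w) (fun j' => (pl (V j) j').1) ≤ _
      linarith
    · change Q2 (fun j' => (pl (V j) j').2) ≤ _
      linarith

end

end Pool.Agent.MP_f1864b_gt.Coc
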