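import Pool.Agent.Lib.MP_f1864b_gt.A.Short

set_option autoImplicit false

/-!
# MP_f1864b_gt, arithmetic part: finitely many types of short triples, cocompactness of `Lam`
-/

namespace Pool.Agent.MP_f1864b_gt.Coc

open Matrix Module Pool.Agent.MP_f1864b_gt Pool.Agent.Dold.Num

/-- The Gram matrix of an integral matrix. -/
noncomputable def gram (V : Matrix (Fin 3) (Fin 3) OO) : Matrix (Fin 3) (Fin 3) OO :=
  (V.map cj)ᵀ * hO * V

theorem gram_mul (g V : Matrix (Fin 3) (Fin 3) OO) :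
    gram (g * V) = (V.map cj)ᵀ * gram g * V := by
  rw [gram, gram, Matrix.map_mul, Matrix.transpose_mul]
  simp only [Matrix.mul_assoc]

theorem gram_apply (V : Matrix (Fin 3) (Fin 3) OO) (i j : Fin 3) :
    gram V i j = cj (V 0 i) * V 0 j + cj (V 1 i) * V 1 j + cj (V 2 i) * al * V 2 j := by
  rw [gram, Matrix.mul_apply, Fin.sum_univ_three]
  simp only [hO, Matrix.mul_diagonal, Matrix.transpose_apply, Matrix.map_apply, Matrix.cons_val]
  ring

theorem s1_cj (x : OO) : s1 (cj x) = (starRingEnd ℂ) (s1 x) := rfl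

theorem s2_cj (x : OO) : s2 (cj x) = (starRingEnd ℂ) (s2 x) := rfl

theorem cj_cj (x : OO) : cj (cj x) = x := by
  apply Subtype.ext
  show star (star (x : ℂ × ℂ)) = x
  rw [star_star]

theorem s1_gram (V : Matrix (Fin 3) (Fin 3) OO) (i j : Fin 3) :
    s1 (gram V i j) = hf (fun k => s1 (V k j)) (fun k => s1 (V k i)) := by
  rw [gram_apply, map_add, map_add, map_mul, map_mul, map_mul, map_mul, s1_cj, s1_cj, s1_cj, s1_al,
    hf]
  push_cast
  ring

theorem s2_gram_le (V : Matrix (Fin 3) (Fin 3) OO) (i j : Fin 3) {R : ℝ} (hR : 0 ≤ R)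
    (h : ∀ j, Q2 (fun k => s2 (V k j)) ≤ R ^ 2) : ‖s2 (gram V i j)‖ ≤ R * R := by
  have hr := rho_pos
  rw [gram_apply, map_add, map_add, map_mul, map_mul, map_mul, map_mul, s2_cj, s2_cj, s2_cj, s2_al]
  have hi := h i
  have hj := h j
  rw [Q2] at hi hj
  have h1 : ‖(starRingEnd ℂ) (s2 (V 0 i)) * s2 (V 0 j) + (starRingEnd ℂ) (s2 (V 1 i)) * s2 (V 1 j) +
      (starRingEnd ℂ) (s2 (V 2 i)) * ((1 + rho : ℝ) : ℂ) * s2 (V 2 j)‖ ≤
      ‖s2 (V 0 i)‖ * ‖s2 (V 0 j)‖ + ‖s2 (V 1 i)‖ * ‖s2 (V 1 j)‖ +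
        (1 + rho) * (‖s2 (V 2 i)‖ * ‖s2 (V 2 j)‖) := by
    refine (norm_add_le _ _).trans ?_
    refine add_le_add ((norm_add_le _ _).trans (le_of_eq ?_)) (le_of_eq ?_)
    · rw [norm_mul, norm_mul, RCLike.norm_conj, RCLike.norm_conj]
    · rw [norm_mul, norm_mul, RCLike.norm_conj, Complex.norm_real,
        Real.norm_of_nonneg (by linarith)]
      ring
  refine h1.trans ?_
  refine abs_le_of_sq_le_sq' ?_ (mul_nonneg hR hR) |>.2
  have hr' : 0 ≤ 1 + rho := by linarith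
  have e1 := sq_nonneg (‖s2 (V 0 i)‖ * ‖s2 (V 1 j)‖ - ‖s2 (V 1 i)‖ * ‖s2 (V 0 j)‖)
  have e2 := mul_nonneg hr' (sq_nonneg (‖s2 (V 0 i)‖ * ‖s2 (V 2 j)‖ - ‖s2 (V 2 i)‖ * ‖s2 (V 0 j)‖))
  have e3 := mul_nonneg hr' (sq_nonneg (‖s2 (V 1 i)‖ * ‖s2 (V 2 j)‖ - ‖s2 (V 2 i)‖ * ‖s2 (V 1 j)‖))
  have h2 : (‖s2 (V 0 i)‖ * ‖s2 (V 0 j)‖ + ‖s2 (V 1 i)‖ * ‖s2 (V 1 j)‖ +
        (1 + rho) * (‖s2 (V 2 i)‖ * ‖s2 (V 2 j)‖)) ^ 2 ≤
      (‖s2 (V 0 i)‖ ^ 2 + ‖s2 (V 1 i)‖ ^ 2 + (1 + rho) * ‖s2 (V 2 i)‖ ^ 2) *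
      (‖s2 (V 0 j)‖ ^ 2 + ‖s2 (V 1 j)‖ ^ 2 + (1 + rho) * ‖s2 (V 2 j)‖ ^ 2) := by
    nlinarith
  have h3 : (‖s2 (V 0 i)‖ ^ 2 + ‖s2 (V 1 i)‖ ^ 2 + (1 + rho) * ‖s2 (V 2 i)‖ ^ 2) *
      (‖s2 (V 0 j)‖ ^ 2 + ‖s2 (V 1 j)‖ ^ 2 + (1 + rho) * ‖s2 (V 2 j)‖ ^ 2) ≤ R ^ 2 * R ^ 2 := by
    refine mul_le_mul hi hj ?_ (sq_nonneg _)
    positivity
  rw [mul_pow]
  linarith

theorem s1_gram_le {w : ℂ × ℂ} (hw : w ∈ Ball) (V : Matrix (Fin 3) (Fin 3) OO) (i j : Fin 3)
    {R : ℝ} (hR : 0 ≤ R) (h : ∀ j, Nf (lift3 w) (fun k => s1 (V k j)) ≤ R ^ 2) :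
    ‖s1 (gram V i j)‖ ≤ R * R := by
  rw [s1_gram, ← hf_refl (qf_mv_ne hw)]
  refine hf_le _ _ ?_ ?_ hR hR
  · rw [Q0_refl hw]
    exact h j
  · rw [Q0_refl hw]
    exact h i

theorem det_gram (V : Matrix (Fin 3) (Fin 3) OO) : (gram V).det = cj V.det * al * V.det := by
  have h1 : (hO : Matrix (Fin 3) (Fin 3) OO).det = al := by
    rw [hO, Matrix.det_diagonal, Fin.prod_univ_three]
    simp
  rw [gram, Matrix.det_mul, Matrix.det_mul, Matrix.det_transpose, h1, ← RingHom.mapMatrix_apply,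
    ← RingHom.map_det]

section

variable (hnorm : ∀ x : OO, x ≠ 0 → 1 ≤ ‖s1 x‖ * ‖s2 x‖)

include hnorm

theorem s1_inj : Function.Injective s1 := by
  rw [injective_iff_map_eq_zero]
  intro x hx
  by_contra h
  have := hnorm x h
  rw [hx, norm_zero, zero_mul] at this
  linarith

theorem OO_mul_eq_zero {x y : OO} (h : x * y = 0) (hx : x ≠ 0) : y = 0 := by
  have h1 : s1 x * s1 y = 0 := by rw [← map_mul, h, map_zero]
  rcases mul_eq_zero.mp h1 with h2 | h2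
  · exact absurd ((s1_inj hnorm) (h2.trans (map_zero s1).symm)) hx
  · exact (s1_inj hnorm) (h2.trans (map_zero s1).symm)

theorem mat_cancel {d : OO} (hd : d ≠ 0) {M N : Matrix (Fin 3) (Fin 3) OO} (h : d • M = d • N) :
    M = N := by
  ext1 i j
  have h1 := congrFun (congrFun h i) j
  rw [Matrix.smul_apply, Matrix.smul_apply, smul_eq_mul, smul_eq_mul] at h1
  have h2 : d * (M i j - N i j) = 0 := by rw [mul_sub, h1, sub_self]
  exact sub_eq_zero.mp (OO_mul_eq_zero hnorm h2 hd)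

/-- Two matrices of the same type differ by an element of the unitary group. -/
theorem exists_lam {V V' : Matrix (Fin 3) (Fin 3) OO} (hd : V.det ≠ 0) (hdet : V'.det = V.det)
    (hg : gram V' = gram V) (hadj : ∀ i j, V.det ∣ (V.adjugate - V'.adjugate) i j) :
    ∃ g ∈ Lam, (g : Matrix (Fin 3) (Fin 3) OO) * V = V' := by
  choose X hX using hadj
  have hX' : V.adjugate - V'.adjugate = V.det • (Matrix.of X) := by
    ext1 i j
    rw [hX, Matrix.smul_apply, smul_eq_mul, Matrix.of_apply]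
  set g0 : Matrix (Fin 3) (Fin 3) OO := 1 + V' * Matrix.of X with hg0
  have h1 : V.det • g0 = V' * V.adjugate := by
    rw [hg0, smul_add, ← Matrix.mul_smul, ← hX', Matrix.mul_sub, Matrix.mul_adjugate, hdet]
    abel
  have h2 : g0 * V = V' := by
    refine mat_cancel hnorm hd ?_
    rw [← Matrix.smul_mul, h1, Matrix.mul_assoc, Matrix.adjugate_mul, Matrix.mul_smul,
      Matrix.mul_one]
  have h3 : g0.det = 1 := by
    have h4 : g0.det * V.det = V.det := by rw [← Matrix.det_mul, h2, hdet]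
    have h5 : V.det * (g0.det - 1) = 0 := by
      rw [mul_sub, mul_one, mul_comm, h4, sub_self]
    exact sub_eq_zero.mp (OO_mul_eq_zero hnorm h5 hd)
  have h4 : gram g0 = hO := by
    have h5 : (V.map cj)ᵀ * (gram g0 - hO) * V = 0 := by
      rw [Matrix.mul_sub, Matrix.sub_mul, ← gram_mul, h2, hg]
      exact sub_self _
    have h6 : (V.adjugate.map cj)ᵀ * (V.map cj)ᵀ = cj V.det • (1 : Matrix (Fin 3) (Fin 3) OO) := by
      rw [← Matrix.transpose_mul, ← Matrix.map_mul, Matrix.mul_adjugate]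
      ext1 i j
      rw [Matrix.transpose_apply, Matrix.map_apply, Matrix.smul_apply, Matrix.smul_apply,
        smul_eq_mul, smul_eq_mul, map_mul, Matrix.one_apply, Matrix.one_apply]
      by_cases h : i = j
      · subst h
        simp
      · rw [if_neg (Ne.symm h), if_neg h, map_zero]
    have h7 : (V.adjugate.map cj)ᵀ * ((V.map cj)ᵀ * (gram g0 - hO) * V) * V.adjugate =
        (cj V.det * V.det) • (gram g0 - hO) := by
      calc (V.adjugate.map cj)ᵀ * ((V.map cj)ᵀ * (gram g0 - hO) * V) * V.adjugate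
          = ((V.adjugate.map cj)ᵀ * (V.map cj)ᵀ) * (gram g0 - hO) * (V * V.adjugate) := by
            simp only [Matrix.mul_assoc]
        _ = (cj V.det * V.det) • (gram g0 - hO) := by
            rw [h6, Matrix.mul_adjugate, Matrix.smul_mul, Matrix.one_mul, Matrix.mul_smul,
              Matrix.mul_one, smul_smul, mul_comm]
    rw [h5, Matrix.mul_zero, Matrix.zero_mul] at h7
    have h8 : cj V.det ≠ 0 := by
      intro h
      apply hd
      rw [← cj_cj V.det, h, map_zero]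
    have h9 : cj V.det * V.det ≠ 0 := fun h => hd (OO_mul_eq_zero hnorm h h8)
    have h10 : (cj V.det * V.det) • (gram g0 - hO) = (cj V.det * V.det) • 0 := by
      rw [← h7, smul_zero]
    exact sub_eq_zero.mp (mat_cancel hnorm h9 h10)
  have hu : IsUnit g0.det := by rw [h3]; exact isUnit_one
  refine ⟨Matrix.GeneralLinearGroup.mk'' g0 hu, ?_, ?_⟩
  · exact h4
  · exact h2

end

end Pool.Agent.MP_f1864b_gt.Coc
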